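import Pool.Agent.Lib.MP_0e8720_lc.Phase

/-!
Classes, phases, and the bound on the expected maximum load.
-/

namespace Pool.Agent.Lib.MP_0e8720_lc

open Classical MeasureTheory

variable {n : ℕ}

/-- weight class -/
noncomputable def cls (r x : ℝ) : ℤ := sInf {c : ℤ | x ≤ r ^ c}

/-- the jobs up to time `t` can be scheduled with maximum load at most `r ^ p` -/
def Feas (r : ℝ) (job : ℕ → ℝ × Finset (Fin n)) (t : ℕ) (p : ℤ) : Prop :=
  ∃ f : ℕ → Fin n, (∀ s ≤ t, f s ∈ (job s).2) ∧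
    ∀ i, (∑ s ∈ Finset.range (t + 1), if f s = i then (job s).1 else 0) ≤ r ^ p

/-- the phase of time `t` -/
noncomputable def ph (r : ℝ) (job : ℕ → ℝ × Finset (Fin n)) (t : ℕ) : ℤ :=
  sInf {p : ℤ | Feas r job t p}

/-- input data of the algorithm -/
noncomputable def inpOf (r κ : ℝ) (job : ℕ → ℝ × Finset (Fin n)) (t : ℕ) : I n :=
  ⟨(job t).2, cls r (job t).1, κ / r ^ ph r job t⟩

variable {r : ℝ}

lemma bdd_of_le (hr : 1 < r) {x : ℝ} (hx : 0 < x) {S : Set ℤ} (h : ∀ p ∈ S, x ≤ r ^ p) :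
    BddBelow S := by
  obtain ⟨k, hk, -⟩ := exists_mem_Ico_zpow hx hr
  exact ⟨k, fun p hp => (zpow_le_zpow_iff_right₀ hr).1 (hk.trans (h p hp))⟩

lemma exists_le_zpow (hr : 1 < r) (x : ℝ) : ∃ p : ℤ, x ≤ r ^ p := by
  rcases le_or_gt x 0 with hx | hx
  · exact ⟨0, by simp; linarith⟩
  · obtain ⟨k, -, hk⟩ := exists_mem_Ico_zpow hx hr
    exact ⟨k + 1, hk.le⟩

lemma le_cls (hr : 1 < r) {x : ℝ} (hx : 0 < x) : x ≤ r ^ cls r x :=
  Int.csInf_mem (s := {c : ℤ | x ≤ r ^ c}) (exists_le_zpow hr x) (bdd_of_le hr hx fun _ h => h)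

lemma cls_le (hr : 1 < r) {x : ℝ} (hx : 0 < x) {p : ℤ} (h : x ≤ r ^ p) : cls r x ≤ p :=
  csInf_le (bdd_of_le hr hx fun _ h => h) h

lemma zpow_cls_le (hr : 1 < r) {x : ℝ} (hx : 0 < x) : r ^ cls r x ≤ r * x := by
  by_contra hc
  push Not at hc
  have hr0 : 0 < r := by linarith
  have : x ≤ r ^ (cls r x - 1) := by
    rw [zpow_sub₀ hr0.ne', zpow_one, le_div_iff₀ hr0]
    linarith
  have := cls_le hr hx this
  omega

lemma Feas.weight_le {job : ℕ → ℝ × Finset (Fin n)} {t : ℕ} {p : ℤ} (h : Feas r job t p)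
    (hw : ∀ s ≤ t, 0 < (job s).1) {s : ℕ} (hs : s ≤ t) : (job s).1 ≤ r ^ p := by
  obtain ⟨f, -, hf⟩ := h
  refine le_trans ?_ (hf (f s))
  have := Finset.single_le_sum (s := Finset.range (t + 1))
    (f := fun s' => if f s' = f s then (job s').1 else 0)
    (fun s' hs' => by
      have := hw s' (by have := Finset.mem_range.1 hs'; omega)
      split_ifs
      · exact this.le
      · exact le_rfl) (Finset.mem_range.2 (show s < t + 1 by omega))
  simpa using this

lemma feas_nonempty (hr : 1 < r) {job : ℕ → ℝ × Finset (Fin n)} {t : ℕ}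
    (hj : ∀ s ≤ t, 0 < (job s).1 ∧ (job s).2.Nonempty) : ∃ p, Feas r job t p := by
  have h0 := (hj 0 (Nat.zero_le _)).2
  set f : ℕ → Fin n := fun s => if h : (job s).2.Nonempty then h.choose else h0.choose with hf
  obtain ⟨p, hp⟩ := exists_le_zpow hr (∑ s ∈ Finset.range (t + 1), (job s).1)
  refine ⟨p, f, fun s hs => ?_, fun i => le_trans (Finset.sum_le_sum fun s hs => ?_) hp⟩
  · simp only [hf, dif_pos (hj s hs).2]
    exact (hj s hs).2.choose_spec
  · have := (hj s (by have := Finset.mem_range.1 hs; omega)).1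
    split_ifs
    · exact le_rfl
    · exact this.le

lemma feas_bdd (hr : 1 < r) {job : ℕ → ℝ × Finset (Fin n)} {t : ℕ}
    (hj : ∀ s ≤ t, 0 < (job s).1 ∧ (job s).2.Nonempty) : BddBelow {p : ℤ | Feas r job t p} :=
  bdd_of_le hr (hj 0 (Nat.zero_le _)).1 fun _ hp =>
    Feas.weight_le hp (fun s hs => (hj s hs).1) (Nat.zero_le _)

lemma feas_ph (hr : 1 < r) {job : ℕ → ℝ × Finset (Fin n)} {t : ℕ}
    (hj : ∀ s ≤ t, 0 < (job s).1 ∧ (job s).2.Nonempty) : Feas r job t (ph r job t) :=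
  Int.csInf_mem (s := {p : ℤ | Feas r job t p}) (feas_nonempty hr hj) (feas_bdd hr hj)

lemma ph_le (hr : 1 < r) {job : ℕ → ℝ × Finset (Fin n)} {t : ℕ}
    (hj : ∀ s ≤ t, 0 < (job s).1 ∧ (job s).2.Nonempty) {p : ℤ} (h : Feas r job t p) :
    ph r job t ≤ p :=
  csInf_le (feas_bdd hr hj) h

lemma ph_mono (hr : 1 < r) {job : ℕ → ℝ × Finset (Fin n)} {t : ℕ}
    (hj : ∀ s ≤ t + 1, 0 < (job s).1 ∧ (job s).2.Nonempty) : ph r job t ≤ ph r job (t + 1) := by
  refine ph_le hr (fun s hs => hj s (by omega)) ?_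
  obtain ⟨f, h1, h2⟩ := feas_ph hr hj
  refine ⟨f, fun s hs => h1 s (by omega), fun i => le_trans ?_ (h2 i)⟩
  rw [Finset.sum_range_succ _ (t + 1)]
  have := (hj (t + 1) le_rfl).1
  split_ifs <;> linarith

lemma inpOf_congr {κ : ℝ} {job job' : ℕ → ℝ × Finset (Fin n)} {t : ℕ}
    (h : ∀ s ≤ t, job s = job' s) : inpOf r κ job t = inpOf r κ job' t := by
  have e : ∀ p, Feas r job t p ↔ Feas r job' t p := by
    intro p
    unfold Feas
    refine exists_congr fun f => and_congr ?_ (forall_congr' fun i => ?_)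
    · exact forall_congr' fun s => forall_congr' fun hs => by rw [h s hs]
    · rw [Finset.sum_congr rfl fun s hs => by
        rw [h s (by have := Finset.mem_range.1 hs; omega)]]
  unfold inpOf ph
  rw [h t le_rfl]
  simp only [e]

lemma geom_bound (hr : 1 < r) (Γ : Finset ℤ) :
    ∀ P : ℤ, (∀ c ∈ Γ, c ≤ P) → ∑ c ∈ Γ, r ^ c ≤ r ^ P * r / (r - 1) := by
  have hr0 : 0 < r := by linarith
  have hr1 : 0 < r - 1 := by linarith
  induction Γ using Finset.induction_on_max with
  | empty => intro P _; simp only [Finset.sum_empty]; have := zpow_pos hr0 P; positivity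
  | insert a s ha ih =>
    intro P hP
    rw [Finset.sum_insert (fun hc => lt_irrefl _ (ha a hc))]
    have h1 := ih (a - 1) (fun c hc => by have := ha c hc; omega)
    have h2 : r ^ a ≤ r ^ P := zpow_le_zpow_right₀ hr.le (hP a (Finset.mem_insert_self _ _))
    have e : r ^ (a - 1) * r = r ^ a := by
      rw [zpow_sub₀ hr0.ne', zpow_one]; field_simp
    rw [e] at h1
    have h3 : r ^ a + r ^ a / (r - 1) = r ^ a * r / (r - 1) := by field_simp; ring
    have h4 : r ^ a * r / (r - 1) ≤ r ^ P * r / (r - 1) :=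
      div_le_div_of_nonneg_right (mul_le_mul_of_nonneg_right h2 hr0.le) hr1.le
    linarith

variable [NeZero n] {m : ℕ}

/-- the load of machine `i` after `N` jobs -/
noncomputable def load (D : ℕ → J n) (w : ℕ → ℝ) (N : ℕ) (i : Fin n) (ω : Om n m) : ℝ :=
  ∑ s ∈ Finset.range N, if (choice D s ω).2 = i then w s else 0

lemma mgf_bound (hr : 1 < r) (inp : ℕ → I n) (N : ℕ) (w : ℕ → ℝ)
    (hw : ∀ s < N, w s ≤ r ^ (inp s).cl) {a : ℝ} (ha : 0 < a) (i : Fin n) :
    Ex N (fun ω : Om n m => Real.exp (a * load (DD m r inp) w N i ω)) ≤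
      Real.exp (a * ∑ c ∈ Cls inp N, r ^ c) * X m r inp N a i N := by
  have hr0 : 0 < r := by linarith
  set D := DD m r inp with hD
  have h1 : ∀ ω : Om n m, Real.exp (a * load D w N i ω) ≤
      ∏ c ∈ Cls inp N, (Qf m r a c ^ (m + 1)) ^ Nc D i c N ω := by
    intro ω
    have h2 : load D w N i ω ≤ ∑ c ∈ Cls inp N, r ^ c * Nc D i c N ω := by
      rw [← rounded_load D i N ω (Cls inp N) (fun s hs => cl_mem_Cls inp hs) (fun c => r ^ c)]
      refine Finset.sum_le_sum fun s hs => ?_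
      split_ifs
      · exact hw s (Finset.mem_range.1 hs)
      · exact le_rfl
    refine (Real.exp_le_exp.2 (mul_le_mul_of_nonneg_left h2 ha.le)).trans (le_of_eq ?_)
    rw [Finset.mul_sum, Real.exp_sum]
    refine Finset.prod_congr rfl fun c _ => ?_
    rw [Qf_pow, ← Real.exp_nat_mul]
    congr 1
    ring
  refine (Ex_mono h1).trans ?_
  rw [Ex_prod_of_dep (fun s : Slot n => (D s.1).cl) (Cls inp N)
    (fun c ω => (Qf m r a c ^ (m + 1)) ^ Nc D i c N ω)
    (fun c ω ω' hω => by simp only [Nc_dep D i c N ω ω' hω])]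
  rw [Finset.mul_sum, Real.exp_sum, X, ← Finset.prod_mul_distrib]
  refine Finset.prod_le_prod (fun c _ => Ex_nonneg fun ω => ?_) (fun c _ => ?_)
  · have := one_lt_Qf (m := m) hr0 ha c
    positivity
  · rw [← Qf_pow (m := m)]
    exact Ex_pow_Nc_le D (one_lt_Qf hr0 ha c).le i c le_rfl

lemma Ex_max_le {N : ℕ} (ℓ : Fin n → Om n m → ℝ) {a Z : ℝ} (ha : 0 < a) (hZ : 0 < Z)
    (h : ∑ i, Ex N (fun ω => Real.exp (a * ℓ i ω)) ≤ Z) :
    Ex N (fun ω => ⨆ i, ℓ i ω) ≤ Real.log Z / a := by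
  have h1 : ∀ ω, (⨆ i, ℓ i ω) ≤
      (Real.log Z - 1) / a + (1 / (a * Z)) * ∑ i, Real.exp (a * ℓ i ω) := by
    intro ω
    refine ciSup_le fun i => ?_
    have h2 : Real.exp (a * ℓ i ω) ≤ ∑ i, Real.exp (a * ℓ i ω) :=
      Finset.single_le_sum (f := fun i => Real.exp (a * ℓ i ω))
        (fun _ _ => (Real.exp_pos _).le) (Finset.mem_univ i)
    have h3 := Real.add_one_le_exp (a * ℓ i ω - Real.log Z)
    rw [Real.exp_sub, Real.exp_log hZ] at h3
    have h4 : Real.exp (a * ℓ i ω) / Z ≤ (∑ i, Real.exp (a * ℓ i ω)) / Z :=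
      div_le_div_of_nonneg_right h2 hZ.le
    have e : (Real.log Z - 1) / a + (1 / (a * Z)) * ∑ i, Real.exp (a * ℓ i ω) =
        (Real.log Z - 1 + (∑ i, Real.exp (a * ℓ i ω)) / Z) / a := by field_simp
    rw [e, le_div_iff₀ ha]
    linarith
  refine (Ex_mono h1).trans ?_
  rw [Ex_add, Ex_const, Ex_mul_left, Ex_sum]
  have h5 := mul_le_mul_of_nonneg_left h (show 0 ≤ 1 / (a * Z) by positivity)
  have e : (Real.log Z - 1) / a + 1 / (a * Z) * Z = Real.log Z / a := by field_simp; ring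
  linarith

/-- the bound on the expected maximum load -/
lemma main_bound (hr : 1 < r) {η : ℝ} (hη : 0 < η) (hη1 : η < 1)
    (job : ℕ → ℝ × Finset (Fin n)) {N : ℕ} (hN : 0 < N)
    (hj : ∀ s < N, 0 < (job s).1 ∧ (job s).2.Nonempty) (f : ℕ → Fin n)
    (hf : ∀ s < N, f s ∈ (job s).2) {T : ℝ}
    (hT : ∀ i, (∑ s ∈ Finset.range N, if f s = i then (job s).1 else 0) ≤ T) :
    Ex N (fun ω : Om n m => ⨆ i,
      load (DD m r (inpOf r ((1 - η) / (r * Real.exp (1 / (m + 1)))) job))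
        (fun s => (job s).1) N i ω) ≤
      (r ^ 2 * Real.exp (1 / (m + 1)) / (1 - η) * (Real.log n + -Real.log η * r / (r - 1))
        + r ^ 2 / (r - 1)) * T := by
  obtain ⟨t, rfl⟩ : ∃ t, N = t + 1 := ⟨N - 1, by omega⟩
  have hr0 : 0 < r := by linarith
  have hr1 : 0 < r - 1 := by linarith
  have hη2 : 0 < 1 - η := by linarith
  set E := Real.exp (1 / ((m : ℝ) + 1)) with hE
  have hE1 : 1 ≤ E := Real.one_le_exp (by positivity)
  set κ := (1 - η) / (r * E) with hκ
  have hκ0 : 0 < κ := by positivity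
  have hκ1 : κ ≤ 1 := by
    rw [hκ, div_le_one (by positivity)]
    nlinarith
  set inp := inpOf r κ job with hinp
  have hj' : ∀ s < t + 1, ∀ s' ≤ s, 0 < (job s').1 ∧ (job s').2.Nonempty :=
    fun s hs s' hs' => hj s' (by omega)
  have hcl : ∀ s < t + 1, (inp s).cl ≤ ph r job s := fun s hs =>
    cls_le hr (hj s hs).1
      ((feas_ph hr (hj' s hs)).weight_le (fun s' hs' => (hj' s hs s' hs').1) le_rfl)
  have hmono : ∀ s, s + 1 < t + 1 → ph r job s ≤ ph r job (s + 1) :=
    fun s hs => ph_mono hr (hj' _ hs)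
  have hpot := potential_bound (m := m) hr inp (t + 1) (ph r job) hκ0 hκ1 hη hη1.le
    (le_of_eq (by rw [hκ, ← hE]; field_simp)) hmono (fun _ _ => rfl) hcl
    (fun s hs => by
      obtain ⟨g, h1, h2⟩ := feas_ph hr (hj' s hs)
      refine ⟨g, h1, fun i => le_trans ?_ (mul_le_mul_of_nonneg_left (h2 i) hr0.le)⟩
      rw [Finset.mul_sum]
      refine Finset.sum_le_sum fun s' hs' => ?_
      split_ifs
      · exact zpow_cls_le hr (hj s' (by have := Finset.mem_range.1 hs'; omega)).1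
      · simp) t (Nat.lt_succ_self t)
  set P := ph r job t with hP
  set a := (inp t).a with ha
  have haP : a = κ / r ^ P := rfl
  have hrP := zpow_pos hr0 P
  have ha0 : 0 < a := by rw [haP]; positivity
  have hPT : r ^ P ≤ r * T := by
    by_contra hc
    push Not at hc
    have h1 : Feas r job t (P - 1) := by
      refine ⟨f, fun s hs => hf s (by omega), fun i => (hT i).trans ?_⟩
      rw [zpow_sub₀ hr0.ne', zpow_one, le_div_iff₀ hr0]
      linarith
    have := ph_le hr (hj' t (Nat.lt_succ_self t)) h1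
    omega
  have hphle : ∀ s ≤ t, ph r job s ≤ P := by
    intro s hs
    induction hs' : t - s generalizing s with
    | zero => rw [show s = t by omega]
    | succ k ih => exact (hmono s (by omega)).trans (ih (s + 1) (by omega) (by omega))
  have hS : ∑ c ∈ Cls inp (t + 1), r ^ c ≤ r ^ P * r / (r - 1) := by
    refine geom_bound hr _ P fun c hc => ?_
    obtain ⟨s, hs, rfl⟩ := Finset.mem_image.1 hc
    have := Finset.mem_range.1 hs
    exact (hcl s this).trans (hphle s (by omega))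
  set S := ∑ c ∈ Cls inp (t + 1), r ^ c with hSdef
  set lk := -Real.log η * r / (r - 1) with hlk
  have hlk0 : 0 ≤ lk := by
    have := Real.log_nonpos hη.le hη1.le
    have : 0 ≤ -Real.log η := by linarith
    positivity
  have hn : (1 : ℝ) ≤ n := by exact_mod_cast Nat.one_le_iff_ne_zero.2 (NeZero.ne n)
  have hsum : ∑ i, Ex (t + 1) (fun ω : Om n m =>
      Real.exp (a * load (DD m r inp) (fun s => (job s).1) (t + 1) i ω)) ≤
      Real.exp (a * S) * (n * Real.exp lk) := by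
    refine le_trans (Finset.sum_le_sum fun i _ => mgf_bound hr inp (t + 1) _
      (fun s hs => le_cls hr (hj s hs).1) ha0 i) ?_
    rw [← Finset.mul_sum]
    exact mul_le_mul_of_nonneg_left hpot (Real.exp_pos _).le
  refine (Ex_max_le _ ha0 (by positivity) hsum).trans ?_
  rw [Real.log_mul (by positivity) (by positivity), Real.log_mul (by positivity) (by positivity),
    Real.log_exp, Real.log_exp]
  have hL : 0 ≤ Real.log n + lk := add_nonneg (Real.log_nonneg hn) hlk0
  have e : (a * S + (Real.log n + lk)) / a = S + r ^ P * (r * E / (1 - η)) * (Real.log n + lk) := by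
    rw [haP, hκ]
    field_simp
  rw [e]
  have h1 : r ^ P * r / (r - 1) ≤ r ^ 2 / (r - 1) * T := by
    rw [div_mul_eq_mul_div]
    refine div_le_div_of_nonneg_right ?_ hr1.le
    nlinarith
  have h2 : r ^ P * (r * E / (1 - η)) * (Real.log n + lk) ≤
      r ^ 2 * E / (1 - η) * (Real.log n + lk) * T := by
    have h3 := mul_le_mul_of_nonneg_right hPT
      (show 0 ≤ (r * E / (1 - η)) * (Real.log n + lk) by positivity)
    refine le_trans (le_of_eq (by ring)) (h3.trans (le_of_eq (by ring)))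
  nlinarith

end Pool.Agent.Lib.MP_0e8720_lc
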