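import Mathlib

set_option autoImplicit false

namespace Pool.Agent.Lib.MP_0e8720_lc

/-- A task: a weight and a set of admissible machines. -/
abbrev Job (n : ℕ) := ℝ × Finset (Fin n)

/-- The assignment respects the admissible sets. -/
def Feas {n : ℕ} (σ : List (Job n)) (f : Fin σ.length → Fin n) : Prop := ∀ i, f i ∈ (σ.get i).2

/-- The maximum load of an assignment. -/
noncomputable def cost {n : ℕ} (σ : List (Job n)) (f : Fin σ.length → Fin n) : ℝ :=
  ⨆ j : Fin n, ∑ i ∈ Finset.univ.filter (fun i => f i = j), (σ.get i).1

/-- The assignment made by the online rule `a`: task `i` goes to the machine that `a` names after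
seeing the tasks up to `i`. -/
def run {n : ℕ} (a : List (Job n) → Fin n) (σ : List (Job n)) : Fin σ.length → Fin n :=
  fun i => a (σ.take (i.1 + 1))

end Pool.Agent.Lib.MP_0e8720_lc
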