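import Pool.Agent.Lib.MP_0e8720_lc.Run

/-!
Deterministic ladder inequalities.
-/

namespace Pool.Agent.Lib.MP_0e8720_lc

open Classical

lemma ladder_lower {Q x : ℝ} (hQ : 1 < Q) (b : ℕ → Prop) (R : ℕ)
    (hb : ∀ r < R, Q ^ r < x → b r) :
    min x (Q ^ R) ≤ 1 + ∑ r ∈ Finset.range R, if b r then (Q - 1) * Q ^ r else 0 := by
  induction R with
  | zero => simp
  | succ R ih =>
    have ih' := ih (fun r hr => hb r (by omega))
    rw [Finset.sum_range_succ]
    have hpos : 0 < Q ^ R := by positivity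
    have hd : 0 ≤ (Q - 1) * Q ^ R := mul_nonneg (by linarith) hpos.le
    by_cases hx : Q ^ R < x
    · rw [if_pos (hb R (by omega) hx)]
      rw [min_eq_right hx.le] at ih'
      have : min x (Q ^ (R + 1)) ≤ Q ^ (R + 1) := min_le_right _ _
      rw [pow_succ] at this ⊢
      nlinarith
    · push Not at hx
      rw [min_eq_left hx] at ih'
      have : min x (Q ^ (R + 1)) ≤ x := min_le_left _ _
      split_ifs <;> linarith

lemma rpow_incr {y z d β : ℝ} (hy : 0 ≤ y) (hyz : y ≤ z) (hd : 0 ≤ d) (h0 : 0 ≤ β) (h1 : β ≤ 1) :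
    (z + d) ^ β - z ^ β ≤ (y + d) ^ β - y ^ β := by
  have hc := Real.concaveOn_rpow h0 h1
  by_cases hzero : z + d - y = 0
  · have e1 : d = 0 := by linarith
    subst e1
    simp
  have hpos : 0 < z + d - y := lt_of_le_of_ne (by linarith) (Ne.symm hzero)
  set l := d / (z + d - y) with hl
  have hl0 : 0 ≤ l := div_nonneg hd hpos.le
  have hl1 : l ≤ 1 := by rw [hl, div_le_one hpos]; linarith
  have hy' : y ∈ Set.Ici (0 : ℝ) := hy
  have hz' : z + d ∈ Set.Ici (0 : ℝ) := by
    show 0 ≤ z + d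
    linarith
  have a1 := hc.2 hy' hz' hl0 (by linarith : 0 ≤ 1 - l) (by ring)
  have a2 := hc.2 hy' hz' (by linarith : 0 ≤ 1 - l) hl0 (by ring)
  simp only [smul_eq_mul] at a1 a2
  have hl' : l * (z + d - y) = d := by rw [hl]; field_simp
  have e1 : l * y + (1 - l) * (z + d) = z := by linarith
  have e2 : (1 - l) * y + l * (z + d) = y + d := by linarith
  rw [e1] at a1
  rw [e2] at a2
  linarith

lemma ladder_bounds {Q : ℝ} (hQ : 1 < Q) (b : ℕ → Prop) (R : ℕ) :
    1 ≤ (1 + ∑ r ∈ Finset.range R, if b r then (Q - 1) * Q ^ r else 0) ∧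
    (1 + ∑ r ∈ Finset.range R, if b r then (Q - 1) * Q ^ r else 0) ≤ Q ^ R := by
  induction R with
  | zero => simp
  | succ R ih =>
    rw [Finset.sum_range_succ, pow_succ]
    have hpos : 0 < Q ^ R := by positivity
    have hd : 0 ≤ (Q - 1) * Q ^ R := mul_nonneg (by linarith) hpos.le
    obtain ⟨h1, h2⟩ := ih
    split_ifs <;> constructor <;> nlinarith

lemma ladder_transfer {Q β : ℝ} (hQ : 1 < Q) (h0 : 0 ≤ β) (h1 : β ≤ 1) (b : ℕ → Prop) (R : ℕ) :
    (1 + ∑ r ∈ Finset.range R, if b r then (Q ^ β - 1) * (Q ^ β) ^ r else 0) ≤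
    (1 + ∑ r ∈ Finset.range R, if b r then (Q - 1) * Q ^ r else 0) ^ β := by
  induction R with
  | zero => simp
  | succ R ih =>
    rw [Finset.sum_range_succ, Finset.sum_range_succ]
    obtain ⟨b1, b2⟩ := ladder_bounds hQ b R
    have hpos : 0 < Q ^ R := by positivity
    have hd : 0 ≤ (Q - 1) * Q ^ R := mul_nonneg (by linarith) hpos.le
    split_ifs with hb
    · have h := rpow_incr (by linarith) b2 hd h0 h1
      have e1 : Q ^ R + (Q - 1) * Q ^ R = Q * Q ^ R := by ring
      have hQ0 : (0 : ℝ) ≤ Q := by linarith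
      have e2 : (Q ^ R) ^ β = (Q ^ β) ^ R := by
        rw [← Real.rpow_natCast, ← Real.rpow_mul hQ0, mul_comm, Real.rpow_mul hQ0,
          Real.rpow_natCast]
      rw [e1, Real.mul_rpow hQ0 hpos.le, e2] at h
      rw [← add_assoc, ← add_assoc]
      linarith
    · simpa using ih

lemma pow_sub_one_le {Q : ℝ} (hQ : 1 ≤ Q) (k : ℕ) : Q ^ k - 1 ≤ k * (Q - 1) * Q ^ k := by
  induction k with
  | zero => simp
  | succ k ih =>
    have h1 : 1 ≤ Q ^ k := one_le_pow₀ hQ
    have h2 : 0 ≤ (k : ℝ) * (Q - 1) * Q ^ k := by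
      have : 0 ≤ Q - 1 := by linarith
      positivity
    rw [pow_succ]
    push_cast
    nlinarith [mul_nonneg (sub_nonneg.2 hQ) (sub_nonneg.2 h1), mul_nonneg h2 (sub_nonneg.2 hQ),
      mul_nonneg (mul_nonneg (sub_nonneg.2 hQ) (sub_nonneg.2 hQ)) (le_trans zero_le_one h1)]

variable {n m : ℕ}

/-- number of jobs of class `c` before time `t` -/
noncomputable def cnt (D : ℕ → J n) (c : ℤ) (t : ℕ) : ℕ :=
  ((Finset.range t).filter (fun s => (D s).cl = c)).card

lemma pos_eq_cnt (D : ℕ → J n) (t : ℕ) : pos D t = cnt D (D t).cl t := rfl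

lemma cnt_succ (D : ℕ → J n) (c : ℤ) (t : ℕ) :
    cnt D c (t + 1) = cnt D c t + if (D t).cl = c then 1 else 0 := by
  unfold cnt
  rw [Finset.range_add_one, Finset.filter_insert]
  split_ifs with h
  · rw [Finset.card_insert_of_notMem (by simp)]
  · rfl

lemma cnt_mono (D : ℕ → J n) (c : ℤ) {t t' : ℕ} (h : t ≤ t') : cnt D c t ≤ cnt D c t' :=
  Finset.card_le_card (Finset.filter_subset_filter _ (Finset.range_mono h))

lemma pos_inj (D : ℕ → J n) {t t' : ℕ} (hc : (D t).cl = (D t').cl) (h : pos D t = pos D t') :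
    t = t' := by
  rw [pos_eq_cnt, pos_eq_cnt, hc] at h
  rcases lt_trichotomy t t' with hl | hl | hl
  · have h1 := cnt_mono D (D t').cl (show t + 1 ≤ t' from hl)
    rw [cnt_succ, if_pos hc] at h1
    omega
  · exact hl
  · have h1 := cnt_mono D (D t').cl (show t' + 1 ≤ t from hl)
    rw [cnt_succ, if_pos rfl] at h1
    omega

/-- flattening of the double index (creation time, rank) -/
def flat (D : ℕ → J n) (c : ℤ) (G : ℕ → Fin (m + 1) → Prop) (r : ℕ) : Prop :=
  ∃ (t : ℕ) (v : Fin (m + 1)), (D t).cl = c ∧ r = pos D t * (m + 1) + (v : ℕ) ∧ G t v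

lemma flat_iff (D : ℕ → J n) (c : ℤ) (G : ℕ → Fin (m + 1) → Prop) {t : ℕ} (ht : (D t).cl = c)
    (v : Fin (m + 1)) : flat D c G (pos D t * (m + 1) + v) ↔ G t v := by
  constructor
  · rintro ⟨t', v', h1, h2, h3⟩
    have hv := v.2
    have hv' := v'.2
    have e1 : pos D t = pos D t' := by
      have a1 : (pos D t * (m + 1) + v) / (m + 1) = pos D t := by
        rw [add_comm, Nat.add_mul_div_right _ _ (Nat.succ_pos m), Nat.div_eq_of_lt hv, zero_add]
      have a2 : (pos D t' * (m + 1) + v') / (m + 1) = pos D t' := by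
        rw [add_comm, Nat.add_mul_div_right _ _ (Nat.succ_pos m), Nat.div_eq_of_lt hv', zero_add]
      rw [← a1, h2, a2]
    have e2 : t = t' := pos_inj D (ht.trans h1.symm) e1
    subst e2
    have e3 : v = v' := Fin.ext (by omega)
    rwa [e3]
  · intro h
    exact ⟨t, v, ht, rfl, h⟩

lemma flat_sum (D : ℕ → J n) (c : ℤ) (G : ℕ → Fin (m + 1) → Prop) (f : ℕ → ℝ) (τ : ℕ) :
    (∑ t ∈ Finset.range τ, if (D t).cl = c then
        ∑ v : Fin (m + 1), (if G t v then f (pos D t * (m + 1) + v) else 0) else 0) =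
      ∑ r ∈ Finset.range (cnt D c τ * (m + 1)), if flat D c G r then f r else 0 := by
  induction τ with
  | zero => simp [cnt]
  | succ τ ih =>
    rw [Finset.sum_range_succ, ih, cnt_succ]
    by_cases h : (D τ).cl = c
    · rw [if_pos h, if_pos h, add_mul, one_mul, Finset.sum_range_add]
      congr 1
      rw [Finset.sum_range]
      refine Finset.sum_congr rfl fun v _ => ?_
      have e : cnt D c τ = pos D τ := by rw [pos_eq_cnt, h]
      rw [e]
      simp only [flat_iff D c G h v]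
    · simp [h]

lemma flat_exists (D : ℕ → J n) (c : ℤ) (τ : ℕ) :
    ∀ r < cnt D c τ * (m + 1), ∃ t < τ, ∃ v : Fin (m + 1),
      (D t).cl = c ∧ r = pos D t * (m + 1) + v := by
  induction τ with
  | zero => simp [cnt]
  | succ τ ih =>
    intro r hr
    by_cases h1 : r < cnt D c τ * (m + 1)
    · obtain ⟨t, ht, v, h⟩ := ih r h1
      exact ⟨t, by omega, v, h⟩
    · rw [cnt_succ] at hr
      by_cases h : (D τ).cl = c
      · rw [if_pos h, add_mul, one_mul] at hr
        refine ⟨τ, by omega, ⟨r - cnt D c τ * (m + 1), by omega⟩, h, ?_⟩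
        rw [pos_eq_cnt, h]
        simp only
        omega
      · simp [h] at hr
        omega

lemma count_bound (D : ℕ → J n) (c : ℤ) {B : ℝ} (hB : 1 ≤ B) (u : ℕ → Prop) [DecidablePred u] (τ : ℕ) :
    B ^ ((Finset.range τ).filter (fun t => u t ∧ (D t).cl = c)).card ≤
      1 + ∑ t ∈ Finset.range τ, if u t ∧ (D t).cl = c then (B - 1) * B ^ pos D t else 0 := by
  induction τ with
  | zero => simp
  | succ τ ih =>
    rw [Finset.sum_range_succ, Finset.range_add_one, Finset.filter_insert]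
    split_ifs with h
    · rw [Finset.card_insert_of_notMem (by simp), pow_succ]
      have hle : ((Finset.range τ).filter (fun t => u t ∧ (D t).cl = c)).card ≤ pos D τ := by
        rw [pos_eq_cnt, h.2]
        refine Finset.card_le_card fun t ht => ?_
        rw [Finset.mem_filter] at ht ⊢
        exact ⟨ht.1, ht.2.2⟩
      have h2 := pow_le_pow_right₀ hB hle
      have h3 := mul_le_mul_of_nonneg_left h2 (sub_nonneg.2 hB)
      nlinarith
    · simpa using ih

end Pool.Agent.Lib.MP_0e8720_lc
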