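import Pool.Agent.Lib.MP_0e8720_lc.Final

/-!
Choice of the parameters, and translation to lists of tasks.
-/

namespace Pool.Agent.Lib.MP_0e8720_lc

open Classical MeasureTheory

lemma log_three_ge : (1.09 : ℝ) ≤ Real.log 3 := by
  rw [Real.le_log_iff_exp_le (by norm_num)]
  have h1 := Real.exp_one_lt_d9
  have h2 : Real.exp 0.09 ≤ 1 / (1 - 0.09) :=
    Real.exp_bound_div_one_sub_of_interval (by norm_num) (by norm_num)
  have e : (1.09 : ℝ) = 1 + 0.09 := by norm_num
  rw [e, Real.exp_add]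
  have h3 := Real.exp_pos (0.09 : ℝ)
  have h4 : (1 : ℝ) / (1 - 0.09) ≤ 1.1 := by norm_num
  nlinarith

lemma param_bound {n : ℕ} (hn : 3 ≤ n) :
    ∃ r η : ℝ, 1 < r ∧ 0 < η ∧ η < 1 ∧
      r ^ 2 * Real.exp (1 / ((n : ℝ) + 1)) / (1 - η) * (Real.log n + -Real.log η * r / (r - 1))
        + r ^ 2 / (r - 1) ≤
      Real.log n + 6000 * Real.sqrt (Real.log n * Real.log (Real.log n)) := by
  have hn3 : (3 : ℝ) ≤ n := by exact_mod_cast hn
  set L := Real.log n with hL
  have hL1 : 1.09 ≤ L := log_three_ge.trans (Real.log_le_log (by norm_num) hn3)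
  have hL0 : 0 < L := by linarith
  have hLn : L ≤ n := by have := Real.log_le_sub_one_of_pos (show (0 : ℝ) < n by linarith); linarith
  set ll := Real.log L with hll
  have hll1 : 1 / 13 ≤ ll := by
    have h := Real.one_sub_inv_le_log_of_pos hL0
    have h2 : L⁻¹ ≤ 1 / 1.09 := by
      rw [inv_eq_one_div]
      exact one_div_le_one_div_of_le (by norm_num) hL1
    have h3 : (1 : ℝ) / 1.09 ≤ 12 / 13 := by norm_num
    linarith
  have hll0 : 0 < ll := by linarith
  have hllL : ll ≤ L := by have := Real.log_le_sub_one_of_pos hL0; linarith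
  set S := Real.sqrt (L * ll) with hS
  have hS2 : S * S = L * ll := Real.mul_self_sqrt (by positivity)
  have hS0 : 0 < S := Real.sqrt_pos.2 (by positivity)
  have hSL : S ≤ L := by
    by_contra hc
    push Not at hc
    nlinarith
  have hS4 : 1 / 4 ≤ S := by
    by_contra hc
    push Not at hc
    nlinarith
  set ε := S / L with hε
  have hε0 : 0 < ε := by positivity
  have hε1 : ε ≤ 1 := by rw [hε, div_le_one hL0]; exact hSL
  have hεL : ε * L = S := by rw [hε]; field_simp
  have hinvL : 1 / L ≤ 4 * ε := by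
    rw [div_le_iff₀ hL0]
    nlinarith
  have hinvε : 1 / ε = S / ll := by
    rw [hε]
    field_simp
    nlinarith
  have hη : 1 / (2 * L) < 1 := by rw [div_lt_one (by positivity)]; linarith
  refine ⟨1 + ε, 1 / (2 * L), by linarith, by positivity, hη, ?_⟩
  have hE : Real.exp (1 / ((n : ℝ) + 1)) ≤ 1 + 8 * ε := by
    have hx0 : 0 ≤ 1 / ((n : ℝ) + 1) := by positivity
    have hx1 : 1 / ((n : ℝ) + 1) ≤ 1 / 4 := one_div_le_one_div_of_le (by norm_num) (by linarith)
    have hx2 : 1 / ((n : ℝ) + 1) ≤ 1 / L := one_div_le_one_div_of_le hL0 (by linarith)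
    set x := 1 / ((n : ℝ) + 1) with hx
    have h1 : Real.exp x ≤ 1 / (1 - x) :=
      Real.exp_bound_div_one_sub_of_interval hx0 (by linarith)
    have h2 : 1 / (1 - x) ≤ 1 + 2 * x := by
      rw [div_le_iff₀ (by linarith)]
      nlinarith
    linarith
  have hD : 1 / (1 - 1 / (2 * L)) ≤ 1 + 4 * ε := by
    refine le_trans ?_ (add_le_add le_rfl hinvL)
    rw [div_le_iff₀ (by linarith)]
    have e : (1 + 1 / L) * (1 - 1 / (2 * L)) = 1 + (L - 1) / (2 * L * L) := by field_simp; ring
    rw [e]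
    have : 0 ≤ (L - 1) / (2 * L * L) := div_nonneg (by linarith) (by positivity)
    linarith
  set F := (1 + ε) ^ 2 * Real.exp (1 / ((n : ℝ) + 1)) / (1 - 1 / (2 * L)) with hF
  have hF1 : F ≤ 1 + 179 * ε := by
    have h1 : (1 + ε) ^ 2 ≤ 1 + 3 * ε := by nlinarith
    have h2 : (1 + ε) ^ 2 * Real.exp (1 / ((n : ℝ) + 1)) ≤ (1 + 3 * ε) * (1 + 8 * ε) :=
      mul_le_mul h1 hE (Real.exp_pos _).le (by positivity)
    have h3 : (1 + 3 * ε) * (1 + 8 * ε) ≤ 1 + 35 * ε := by nlinarith
    have h4 : F ≤ (1 + 35 * ε) * (1 + 4 * ε) := by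
      rw [hF, div_eq_mul_one_div]
      exact mul_le_mul (h2.trans h3) hD (by have : 0 < 1 - 1 / (2 * L) := by linarith
                                            positivity) (by positivity)
    nlinarith
  have hF0 : 0 ≤ F := by
    have : 0 < 1 - 1 / (2 * L) := by linarith
    positivity
  have hlam : -Real.log (1 / (2 * L)) ≤ 14 * ll := by
    rw [one_div, Real.log_inv, neg_neg, Real.log_mul (by norm_num) hL0.ne', ← hll]
    have := Real.log_le_sub_one_of_pos (show (0 : ℝ) < 2 by norm_num)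
    linarith
  have hlam0 : 0 ≤ -Real.log (1 / (2 * L)) := by
    have := Real.log_nonpos (show 0 ≤ 1 / (2 * L) by positivity) hη.le
    linarith
  have e1 : 1 + ε - 1 = ε := by ring
  rw [e1]
  have hK : -Real.log (1 / (2 * L)) * (1 + ε) / ε ≤ 28 * S := by
    rw [div_eq_mul_one_div, hinvε]
    have h1 : -Real.log (1 / (2 * L)) * (1 + ε) ≤ 14 * ll * 2 :=
      mul_le_mul hlam (by linarith) (by positivity) (by positivity)
    refine (mul_le_mul_of_nonneg_right h1 (by positivity)).trans (le_of_eq ?_)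
    field_simp
    ring
  have hR : (1 + ε) ^ 2 / ε ≤ 52 * S := by
    rw [div_eq_mul_one_div, hinvε]
    have h1 : (1 + ε) ^ 2 ≤ 4 := by nlinarith
    have h2 : S / ll ≤ 13 * S := by
      rw [div_le_iff₀ hll0]
      nlinarith
    have := mul_le_mul h1 h2 (by positivity) (by norm_num)
    linarith
  have h5 : F * L ≤ L + 179 * S := by
    have := mul_le_mul_of_nonneg_right hF1 hL0.le
    nlinarith
  have h6 : F * (-Real.log (1 / (2 * L)) * (1 + ε) / ε) ≤ 180 * (28 * S) :=
    mul_le_mul (by linarith) hK (by positivity) (by norm_num)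
  rw [mul_add]
  linarith

variable {n : ℕ}

/-- the tasks of a list, as a sequence -/
def jobOf (l : List (ℝ × Finset (Fin n))) (s : ℕ) : ℝ × Finset (Fin n) := l.getD s (0, ∅)

lemma jobOf_get (σ : List (ℝ × Finset (Fin n))) (i : Fin σ.length) : jobOf σ i = σ.get i := by
  simp [jobOf]

lemma jobOf_take (σ : List (ℝ × Finset (Fin n))) {t s : ℕ} (hs : s ≤ t) :
    jobOf (σ.take (t + 1)) s = jobOf σ s := by
  simp only [jobOf, List.getD_eq_getElem?_getD]
  rw [List.getElem?_take_of_lt (by omega)]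

variable [NeZero n]

/-- the online algorithm -/
noncomputable def alg (m : ℕ) (r κ : ℝ) (ω : Om n m) (l : List (ℝ × Finset (Fin n))) : Fin n :=
  (choice (DD m r (inpOf r κ (jobOf l))) (l.length - 1) ω).2

lemma alg_mem (m : ℕ) (r κ : ℝ) (ω : Om n m) (l : List (ℝ × Finset (Fin n)))
    (t : ℝ × Finset (Fin n)) (ht : t.2.Nonempty) : alg m r κ ω (l ++ [t]) ∈ t.2 := by
  have e : (DD m r (inpOf r κ (jobOf (l ++ [t]))) ((l ++ [t]).length - 1)).M = t.2 := by
    simp [DD_M, inpOf, jobOf]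
  have := choice_mem_M (D := DD m r (inpOf r κ (jobOf (l ++ [t])))) (t := (l ++ [t]).length - 1) ω
    (by rw [e]; exact ht)
  rwa [e] at this

lemma alg_measurable (m : ℕ) (r κ : ℝ) (l : List (ℝ × Finset (Fin n))) :
    Measurable (fun ω : Om n m => alg m r κ ω l) := by
  refine measurable_of_dep (N := l.length - 1 + 1) fun ω ω' hω => ?_
  unfold alg
  rw [choice_congr (fun _ _ => rfl) (fun s hs => hω s (show s.1 < _ by omega))]

lemma alg_take (m : ℕ) (r κ : ℝ) (ω : Om n m) (σ : List (ℝ × Finset (Fin n))) (i : Fin σ.length) :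
    alg m r κ ω (σ.take (i.1 + 1)) = (choice (DD m r (inpOf r κ (jobOf σ))) i.1 ω).2 := by
  unfold alg
  have e : (σ.take (i.1 + 1)).length - 1 = i.1 := by
    have := i.2
    rw [List.length_take]
    omega
  rw [e, choice_congr (DD_congr i.1 fun s hs => inpOf_congr fun s' hs' =>
    jobOf_take σ (hs'.trans hs)) (fun _ _ => rfl)]

omit [NeZero n] in
lemma sum_filter_eq (σ : List (ℝ × Finset (Fin n))) (g : ℕ → Fin n) (g' : Fin σ.length → Fin n)
    (hg : ∀ i : Fin σ.length, g' i = g i) (j : Fin n) :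
    ∑ i ∈ Finset.univ.filter (fun i : Fin σ.length => g' i = j), (σ.get i).1 =
      ∑ s ∈ Finset.range σ.length, if g s = j then (jobOf σ s).1 else 0 := by
  rw [Finset.sum_filter, Finset.sum_range]
  exact Finset.sum_congr rfl fun i _ => by rw [hg, jobOf_get]

lemma alg_bound (m : ℕ) {r η : ℝ} (hr : 1 < r) (hη : 0 < η) (hη1 : η < 1) {R : ℝ}
    (hR : r ^ 2 * Real.exp (1 / (m + 1)) / (1 - η) * (Real.log n + -Real.log η * r / (r - 1))
        + r ^ 2 / (r - 1) ≤ R)
    (σ : List (ℝ × Finset (Fin n))) (hσ : ∀ t ∈ σ, 0 < t.1 ∧ t.2.Nonempty)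
    (f : Fin σ.length → Fin n) (hf : ∀ i, f i ∈ (σ.get i).2) :
    ∫ ω, (⨆ j : Fin n, ∑ i ∈ Finset.univ.filter (fun i : Fin σ.length =>
        alg m r ((1 - η) / (r * Real.exp (1 / (m + 1)))) ω (σ.take (i.1 + 1)) = j),
        (σ.get i).1) ∂(Pm n m) ≤
      R * ⨆ j : Fin n, ∑ i ∈ Finset.univ.filter (fun i : Fin σ.length => f i = j),
        (σ.get i).1 := by
  rcases Nat.eq_zero_or_pos σ.length with h0 | h0
  · obtain rfl := List.length_eq_zero_iff.1 h0
    simp
  set κ := (1 - η) / (r * Real.exp (1 / (m + 1))) with hκ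
  set T := ⨆ j : Fin n, ∑ i ∈ Finset.univ.filter (fun i : Fin σ.length => f i = j), (σ.get i).1
    with hT
  set g : ℕ → Fin n := fun s => if h : s < σ.length then f ⟨s, h⟩ else 0 with hg
  have hgf : ∀ i : Fin σ.length, f i = g i := fun i => by simp [hg]
  have hj : ∀ s < σ.length, 0 < (jobOf σ s).1 ∧ (jobOf σ s).2.Nonempty := by
    intro s hs
    rw [show jobOf σ s = σ.get ⟨s, hs⟩ from jobOf_get σ ⟨s, hs⟩]
    exact hσ _ (List.get_mem σ _)
  have hTle : ∀ i, (∑ s ∈ Finset.range σ.length, if g s = i then (jobOf σ s).1 else 0) ≤ T := by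
    intro i
    rw [← sum_filter_eq σ g f hgf i]
    exact le_ciSup (f := fun j : Fin n =>
      ∑ i ∈ Finset.univ.filter (fun i : Fin σ.length => f i = j), (σ.get i).1)
      (Set.finite_range _).bddAbove i
  have hT0 : 0 ≤ T := le_trans (Finset.sum_nonneg fun s hs => by
    split_ifs
    · exact (hj s (Finset.mem_range.1 hs)).1.le
    · exact le_rfl) (hTle 0)
  have hmain := main_bound (m := m) hr hη hη1 (jobOf σ) h0 hj g
    (fun s hs => by
      rw [show jobOf σ s = σ.get ⟨s, hs⟩ from jobOf_get σ ⟨s, hs⟩, ← hgf ⟨s, hs⟩]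
      exact hf _) hTle
  have e : (fun ω : Om n m => ⨆ j : Fin n, ∑ i ∈ Finset.univ.filter (fun i : Fin σ.length =>
        alg m r κ ω (σ.take (i.1 + 1)) = j), (σ.get i).1) =
      fun ω => ⨆ j, load (DD m r (inpOf r κ (jobOf σ))) (fun s => (jobOf σ s).1) σ.length j ω := by
    funext ω
    congr 1
    funext j
    exact sum_filter_eq σ (fun s => (choice (DD m r (inpOf r κ (jobOf σ))) s ω).2) _
      (fun i => alg_take m r κ ω σ i) j
  rw [e, integral_eq_Ex (N := σ.length)]
  · exact hmain.trans (mul_le_mul_of_nonneg_right hR hT0)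
  · intro ω ω' hω
    simp only [load]
    congr 1
    funext j
    refine Finset.sum_congr rfl fun s hs => ?_
    have := Finset.mem_range.1 hs
    rw [choice_congr (fun _ _ => rfl) (fun s' hs' => hω s' (show s'.1 < _ by omega))]

end Pool.Agent.Lib.MP_0e8720_lc
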