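import Pool.Agent.Lib.MP_0e8720_lc.Pot

/-!
The algorithm with its deterministic multipliers, and the potential argument over phases.
-/

namespace Pool.Agent.Lib.MP_0e8720_lc

open Classical MeasureTheory

/-- input data of one job: admissible machines, class, exponent -/
structure I (n : ℕ) where
  M : Finset (Fin n)
  cl : ℤ
  a : ℝ

variable {n : ℕ} [NeZero n]

/-- ladder ratio for exponent `a` and class `c` -/
noncomputable def Qf (m : ℕ) (r a : ℝ) (c : ℤ) : ℝ := Real.exp (a * r ^ c / (m + 1))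

/-- the data of job `t`, given the data of the earlier jobs -/
noncomputable def G (m : ℕ) (r : ℝ) (inp : ℕ → I n) (D : ℕ → J n) (t : ℕ) : J n :=
  { M := (inp t).M
    cl := (inp t).cl
    q := Qf m r (inp t).a (inp t).cl
    mu := fun i => ∏ c ∈ ((Finset.range t).image (fun s => (inp s).cl)).erase (inp t).cl,
      Y m D (Qf m r (inp t).a c) i c t }

/-- approximants -/
noncomputable def Dapp (m : ℕ) (r : ℝ) (inp : ℕ → I n) : ℕ → ℕ → J n
  | 0 => fun _ => ⟨∅, 0, 0, fun _ => 0⟩
  | t + 1 => Function.update (Dapp m r inp t) t (G m r inp (Dapp m r inp t) t)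

/-- the data of the algorithm -/
noncomputable def DD (m : ℕ) (r : ℝ) (inp : ℕ → I n) (t : ℕ) : J n := G m r inp (Dapp m r inp t) t

variable {m : ℕ} {r : ℝ}

lemma G_congr {inp inp' : ℕ → I n} {D D' : ℕ → J n} {t : ℕ} (hi : ∀ s ≤ t, inp s = inp' s)
    (h : ∀ s < t, D s = D' s) : G m r inp D t = G m r inp' D' t := by
  unfold G
  have e : (Finset.range t).image (fun s => (inp s).cl) =
      (Finset.range t).image (fun s => (inp' s).cl) :=
    Finset.image_congr fun s hs => by
      simp only [hi s (Finset.mem_range.1 (Finset.mem_coe.1 hs)).le]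
  rw [e, hi t le_rfl]
  congr 1
  funext i
  exact Finset.prod_congr rfl fun c _ => Y_congr h _ i c

lemma Dapp_eq (inp : ℕ → I n) (t : ℕ) : ∀ s < t, Dapp m r inp t s = DD m r inp s := by
  induction t with
  | zero => intro s hs; omega
  | succ t ih =>
    intro s hs
    by_cases h : s = t
    · subst h; simp [Dapp, DD]
    · rw [Dapp, Function.update_of_ne h]
      exact ih s (by omega)

lemma DD_fix (inp : ℕ → I n) (t : ℕ) : DD m r inp t = G m r inp (DD m r inp) t :=
  G_congr (fun _ _ => rfl) (Dapp_eq inp t)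

lemma DD_congr {inp inp' : ℕ → I n} (t : ℕ) (hi : ∀ s ≤ t, inp s = inp' s) :
    ∀ s ≤ t, DD m r inp s = DD m r inp' s := by
  intro s
  induction s using Nat.strong_induction_on with
  | _ s ih =>
    intro hs
    rw [DD_fix, DD_fix inp']
    exact G_congr (fun s' hs' => hi s' (hs'.trans hs)) (fun s' hs' => ih s' hs' (by omega))

lemma DD_M (inp : ℕ → I n) (t : ℕ) : (DD m r inp t).M = (inp t).M := rfl
lemma DD_cl (inp : ℕ → I n) (t : ℕ) : (DD m r inp t).cl = (inp t).cl := rfl
lemma DD_q (inp : ℕ → I n) (t : ℕ) : (DD m r inp t).q = Qf m r (inp t).a (inp t).cl := rfl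

/-- the classes that occur before time `N` -/
noncomputable def Cls (inp : ℕ → I n) (N : ℕ) : Finset ℤ :=
  (Finset.range N).image (fun s => (inp s).cl)

omit [NeZero n] in
lemma cl_mem_Cls (inp : ℕ → I n) {s N : ℕ} (h : s < N) : (inp s).cl ∈ Cls inp N :=
  Finset.mem_image.2 ⟨s, Finset.mem_range.2 h, rfl⟩

lemma DD_mu (inp : ℕ → I n) {t N : ℕ} (ht : t ≤ N) (i : Fin n) :
    (DD m r inp t).mu i = ∏ c ∈ (Cls inp N).erase (inp t).cl,
      Y m (DD m r inp) (Qf m r (inp t).a c) i c t := by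
  rw [DD_fix]
  simp only [G]
  refine Finset.prod_subset (Finset.erase_subset_erase _
    (Finset.image_subset_image (Finset.range_mono ht))) fun c hc hc' => ?_
  refine Y_unseen _ _ i fun s hs hcl => hc' ?_
  rw [Finset.mem_erase] at hc ⊢
  exact ⟨hc.1, Finset.mem_image.2 ⟨s, Finset.mem_range.2 hs, hcl⟩⟩

lemma one_lt_Qf (hr : 0 < r) {a : ℝ} (ha : 0 < a) (c : ℤ) : 1 < Qf m r a c := by
  unfold Qf
  rw [Real.one_lt_exp_iff]
  have := zpow_pos hr c
  positivity

lemma Qf_mul (a β : ℝ) (c : ℤ) : Qf m r (β * a) c = Qf m r a c ^ β := by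
  unfold Qf
  rw [← Real.exp_mul]
  congr 1
  ring

lemma Qf_pow (a : ℝ) (c : ℤ) : Qf m r a c ^ (m + 1) = Real.exp (a * r ^ c) := by
  unfold Qf
  rw [← Real.exp_nat_mul]
  congr 1
  push_cast
  field_simp

lemma Qf_rate {a : ℝ} {c : ℤ} (h0 : 0 ≤ a * r ^ c) (h1 : a * r ^ c ≤ 1) :
    ((m : ℝ) + 1) * (Qf m r a c - 1) ≤ a * r ^ c * Real.exp (1 / (m + 1)) := by
  unfold Qf
  set x := a * r ^ c / (m + 1) with hx
  have hm : (0 : ℝ) < m + 1 := by positivity
  have hx0 : 0 ≤ x := div_nonneg h0 hm.le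
  have hx1 : x ≤ 1 / (m + 1) := div_le_div_of_nonneg_right h1 hm.le
  have e1 : Real.exp x - 1 ≤ x * Real.exp x := by
    have h := Real.add_one_le_exp (-x)
    have h2 : Real.exp (-x) * Real.exp x = 1 := by rw [← Real.exp_add]; simp
    have h3 := mul_le_mul_of_nonneg_right h (Real.exp_pos x).le
    nlinarith
  have e2 : x * Real.exp x ≤ x * Real.exp (1 / (m + 1)) :=
    mul_le_mul_of_nonneg_left (Real.exp_le_exp.2 hx1) hx0
  have e3 : a * r ^ c = (m + 1) * x := by rw [hx]; field_simp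
  rw [e3, mul_assoc]
  exact mul_le_mul_of_nonneg_left (e1.trans e2) hm.le

/-- potential of one machine -/
noncomputable def X (m : ℕ) (r : ℝ) (inp : ℕ → I n) (N : ℕ) (a : ℝ) (i : Fin n) (τ : ℕ) : ℝ :=
  ∏ c ∈ Cls inp N, Y m (DD m r inp) (Qf m r a c) i c τ

lemma X_pos (hr : 0 < r) (inp : ℕ → I n) (N : ℕ) {a : ℝ} (ha : 0 < a) (i : Fin n) (τ : ℕ) :
    0 < X m r inp N a i τ :=
  Finset.prod_pos fun c _ => lt_of_lt_of_le one_pos (one_le_Y _ (one_lt_Qf hr ha c).le i c τ)

lemma X_mono (hr : 0 < r) (inp : ℕ → I n) (N : ℕ) {a : ℝ} (ha : 0 < a) (i : Fin n) {τ τ' : ℕ}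
    (h : τ ≤ τ') : X m r inp N a i τ ≤ X m r inp N a i τ' :=
  Finset.prod_le_prod (fun c _ => le_trans zero_le_one (one_le_Y _ (one_lt_Qf hr ha c).le i c τ))
    (fun c _ => Y_mono _ (one_lt_Qf hr ha c).le i c h)

lemma X_zero (inp : ℕ → I n) (N : ℕ) (a : ℝ) (i : Fin n) : X m r inp N a i 0 = 1 := by
  simp [X, Y_zero]

lemma X_transfer (hr : 0 < r) (inp : ℕ → I n) (N : ℕ) {a β : ℝ} (ha : 0 < a) (h0 : 0 < β)
    (h1 : β ≤ 1) (i : Fin n) (τ : ℕ) : X m r inp N (β * a) i τ ≤ X m r inp N a i τ ^ β := by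
  unfold X
  rw [← Real.finsetProd_rpow _ _
    (fun c _ => le_trans zero_le_one (one_le_Y _ (one_lt_Qf hr ha c).le i c τ))]
  refine Finset.prod_le_prod
    (fun c _ => le_trans zero_le_one (one_le_Y _ (one_lt_Qf hr (mul_pos h0 ha) c).le i c τ))
    (fun c _ => ?_)
  rw [Qf_mul]
  exact Y_transfer _ (one_lt_Qf hr ha c) h0.le h1 i c τ

/-- one step of the potential -/
lemma X_step (hr : 0 < r) (inp : ℕ → I n) {t N : ℕ} (ht : t < N) (ha : 0 < (inp t).a)
    {j : Fin n} (hj : j ∈ (inp t).M) :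
    ∑ i, X m r inp N (inp t).a i (t + 1) ≤ ∑ i, X m r inp N (inp t).a i t +
      (m + 1) * (Qf m r (inp t).a (inp t).cl - 1) * X m r inp N (inp t).a j (t + 1) := by
  set D := DD m r inp with hD
  set a := (inp t).a with hadef
  set c := (inp t).cl with hc
  have hmem := cl_mem_Cls inp ht
  have e0 : ∀ i, X m r inp N a i t = (D t).mu i * Y m D (Qf m r a c) i c t := by
    intro i
    rw [X, ← Finset.mul_prod_erase _ _ hmem, DD_mu inp ht.le, mul_comm]
  have e1 : ∀ i, X m r inp N a i (t + 1) = (D t).mu i * Y m D (Qf m r a c) i c (t + 1) := by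
    intro i
    rw [X, ← Finset.mul_prod_erase _ _ hmem, DD_mu inp ht.le, mul_comm]
    congr 1
    refine Finset.prod_congr rfl fun c' hc' => Y_succ_ne _ _ i ?_
    exact (Finset.ne_of_mem_erase hc').symm
  have hmu : 0 < (D t).mu j := by
    rw [hD, DD_mu inp ht.le]
    exact Finset.prod_pos fun c _ =>
      lt_of_lt_of_le one_pos (one_le_Y _ (one_lt_Qf hr ha c).le j c t)
  have hq := one_lt_Qf (m := m) hr ha c
  have hB := Ex_paid_le (m := m) D ht (i := j) hj hq hmu
  have hsum : ∑ i, X m r inp N a i (t + 1) = ∑ i, X m r inp N a i t +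
      (m + 1) * (Qf m r a c - 1) * Ex N (paid (m := m) D t) := by
    have hp : paid (m := m) D t = fun ω => ∑ i, (D t).mu i * (if (choice D t ω).2 = i then
        (if (D t).cl = c then
          Qf m r a c ^ (pos D (choice D t ω).1 * (m + 1) + ω (choice D t ω)) else 0) else 0) := by
      funext ω
      rw [Finset.sum_eq_single_of_mem (choice D t ω).2 (Finset.mem_univ _)]
      · rw [if_pos rfl, if_pos (show (D t).cl = c from rfl)]; rfl
      · intro i _ hi
        simp [Ne.symm hi]
    rw [hp, Ex_sum, Finset.mul_sum, ← Finset.sum_add_distrib]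
    refine Finset.sum_congr rfl fun i _ => ?_
    rw [e1, e0, Y_succ D _ i c ht, Ex_mul_left]
    ring
  rw [hsum, e1 j]
  have h2 : 0 ≤ ((m : ℝ) + 1) * (Qf m r a c - 1) := mul_nonneg (by positivity) (by linarith)
  exact add_le_add le_rfl (mul_le_mul_of_nonneg_left hB h2)

/-- the potential inside one phase -/
lemma phase_bound (hr : 0 < r) (inp : ℕ → I n) {s₀ t N : ℕ} (ht : t < N) (hs : s₀ ≤ t + 1) {a : ℝ}
    (ha : 0 < a) (hconst : ∀ s, s₀ ≤ s → s ≤ t → (inp s).a = a) (f : ℕ → Fin n)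
    (hf : ∀ s ≤ t, f s ∈ (inp s).M) (ρ : ℕ → ℝ) (hρ0 : ∀ s, 0 ≤ ρ s)
    (hρ : ∀ s, s₀ ≤ s → s ≤ t → (m + 1) * (Qf m r a (inp s).cl - 1) ≤ ρ s) {η : ℝ}
    (hload : ∀ i, (∑ s ∈ Finset.range (t + 1), if f s = i then ρ s else 0) ≤ 1 - η) :
    η * ∑ i, X m r inp N a i (t + 1) ≤ ∑ i, X m r inp N a i s₀ := by
  have key : ∀ τ, s₀ ≤ τ → τ ≤ t + 1 → ∑ i, X m r inp N a i τ ≤ ∑ i, X m r inp N a i s₀ +
      ∑ s ∈ Finset.range τ, ρ s * X m r inp N a (f s) (t + 1) := by
    intro τ hτ
    induction τ, hτ using Nat.le_induction with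
    | base =>
      intro _
      have : 0 ≤ ∑ s ∈ Finset.range s₀, ρ s * X m r inp N a (f s) (t + 1) :=
        Finset.sum_nonneg fun s _ => mul_nonneg (hρ0 s) (X_pos hr inp N ha _ _).le
      linarith
    | succ τ hτ ih =>
      intro hτ'
      have ih' := ih (by omega)
      have hτa := hconst τ hτ (by omega)
      have h1 := X_step (m := m) hr inp (show τ < N by omega) (hτa ▸ ha) (hf τ (by omega))
      rw [hτa] at h1
      rw [Finset.sum_range_succ]
      have h2 : (m + 1) * (Qf m r a (inp τ).cl - 1) * X m r inp N a (f τ) (τ + 1) ≤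
          ρ τ * X m r inp N a (f τ) (t + 1) :=
        mul_le_mul (hρ τ hτ (by omega)) (X_mono hr inp N ha _ hτ') (X_pos hr inp N ha _ _).le
          (hρ0 τ)
      linarith
  have h := key (t + 1) hs le_rfl
  have h2 : ∑ s ∈ Finset.range (t + 1), ρ s * X m r inp N a (f s) (t + 1) ≤
      (1 - η) * ∑ i, X m r inp N a i (t + 1) := by
    calc ∑ s ∈ Finset.range (t + 1), ρ s * X m r inp N a (f s) (t + 1)
        = ∑ s ∈ Finset.range (t + 1), ∑ i,
            (if f s = i then ρ s else 0) * X m r inp N a i (t + 1) := by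
          refine Finset.sum_congr rfl fun s _ => ?_
          rw [Finset.sum_eq_single_of_mem (f s) (Finset.mem_univ _)]
          · simp
          · intro i _ hi; simp [Ne.symm hi]
      _ = ∑ i, (∑ s ∈ Finset.range (t + 1), if f s = i then ρ s else 0) *
            X m r inp N a i (t + 1) := by
          rw [Finset.sum_comm]
          exact Finset.sum_congr rfl fun i _ => by rw [Finset.sum_mul]
      _ ≤ ∑ i, (1 - η) * X m r inp N a i (t + 1) :=
          Finset.sum_le_sum fun i _ =>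
            mul_le_mul_of_nonneg_right (hload i) (X_pos hr inp N ha _ _).le
      _ = _ := by rw [Finset.mul_sum]
  linarith

/-- the potential at a change of phase -/
lemma sum_transfer (hr : 0 < r) (inp : ℕ → I n) (N : ℕ) {a β K : ℝ} (ha : 0 < a) (h0 : 0 < β)
    (h1 : β ≤ 1) (hK : 0 < K) (τ : ℕ) (h : ∑ i, X m r inp N a i τ ≤ n * K) :
    ∑ i, X m r inp N (β * a) i τ ≤ n * K ^ β := by
  have hKβ : 0 < K ^ β := Real.rpow_pos_of_pos hK β
  calc ∑ i, X m r inp N (β * a) i τ
      ≤ ∑ i : Fin n, (K ^ β * (1 - β) + (K ^ β * β / K) * X m r inp N a i τ) := by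
        refine Finset.sum_le_sum fun i _ => (X_transfer hr inp N ha h0 h1 i τ).trans ?_
        refine (rpow_le_tangent (X_pos hr inp N ha i τ).le hK h0.le h1).trans (le_of_eq ?_)
        field_simp
        ring
    _ = n * (K ^ β * (1 - β)) + (K ^ β * β / K) * ∑ i, X m r inp N a i τ := by
        rw [Finset.sum_add_distrib, Finset.sum_const, Finset.card_univ, Fintype.card_fin,
          nsmul_eq_mul, ← Finset.mul_sum]
    _ ≤ n * (K ^ β * (1 - β)) + (K ^ β * β / K) * (n * K) :=
        add_le_add le_rfl (mul_le_mul_of_nonneg_left h (by positivity))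
    _ = n * K ^ β := by field_simp; ring

/-- the potential stays bounded over all phases -/
lemma potential_bound (hr : 1 < r) (inp : ℕ → I n) (N : ℕ) (p : ℕ → ℤ) {κ η : ℝ} (hκ : 0 < κ)
    (hκ1 : κ ≤ 1) (hη : 0 < η) (hη1 : η ≤ 1) (hκη : κ * r * Real.exp (1 / (m + 1)) ≤ 1 - η)
    (hp : ∀ t, t + 1 < N → p t ≤ p (t + 1)) (ha : ∀ t < N, (inp t).a = κ / r ^ p t)
    (hcl : ∀ t < N, (inp t).cl ≤ p t)
    (hf : ∀ t < N, ∃ f : ℕ → Fin n, (∀ s ≤ t, f s ∈ (inp s).M) ∧
      ∀ i, (∑ s ∈ Finset.range (t + 1), if f s = i then r ^ (inp s).cl else 0) ≤ r * r ^ p t) :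
    ∀ t < N, ∑ i, X m r inp N (inp t).a i (t + 1) ≤
      n * Real.exp (-Real.log η * r / (r - 1)) := by
  have hr0 : 0 < r := by linarith
  set lam := -Real.log η with hlam
  have hlam0 : 0 ≤ lam := by
    have := Real.log_nonpos hη.le hη1
    linarith
  set K := Real.exp (lam * r / (r - 1)) with hK
  set K₀ := Real.exp (lam / (r - 1)) with hK₀
  have hr1 : 0 < r - 1 := by linarith
  have hKK : K₀ = η * K := by
    rw [hK₀, hK, ← Real.exp_log hη, ← Real.exp_add]
    congr 1
    have : Real.log η = -lam := by rw [hlam]; ring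
    rw [this]
    field_simp
    ring
  have hapos : ∀ t < N, 0 < (inp t).a := fun t ht => by
    rw [ha t ht]; exact div_pos hκ (zpow_pos hr0 _)
  -- from the start of the phase to the current time
  have step : ∀ t < N, (∃ s₀ ≤ t, (∀ s, s₀ ≤ s → s ≤ t → p s = p t) ∧
      ∑ i, X m r inp N (inp t).a i s₀ ≤ n * K₀) →
      ∑ i, X m r inp N (inp t).a i (t + 1) ≤ n * K := by
    rintro t ht ⟨s₀, hs₀, hps, hb⟩
    obtain ⟨f, hf1, hf2⟩ := hf t ht
    have hat := hapos t ht
    have hE := Real.exp_pos (1 / ((m : ℝ) + 1))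
    have h := phase_bound (m := m) hr0 inp ht (show s₀ ≤ t + 1 by omega) hat
      (fun s h1 h2 => by rw [ha s (by omega), ha t ht, hps s h1 h2]) f hf1
      (fun s => (inp t).a * r ^ (inp s).cl * Real.exp (1 / (m + 1)))
      (fun s => by have := zpow_pos hr0 (inp s).cl; positivity)
      (fun s h1 h2 => by
        refine Qf_rate (by have := zpow_pos hr0 (inp s).cl; positivity) ?_
        rw [ha t ht, div_mul_eq_mul_div, div_le_one (zpow_pos hr0 _)]
        have h3 : r ^ (inp s).cl ≤ r ^ p t := by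
          refine zpow_le_zpow_right₀ hr.le ?_
          rw [← hps s h1 h2]
          exact hcl s (by omega)
        have h4 := zpow_pos hr0 (inp s).cl
        nlinarith) (η := η)
      (fun i => by
        have e : (∑ s ∈ Finset.range (t + 1), if f s = i then
            (inp t).a * r ^ (inp s).cl * Real.exp (1 / (m + 1)) else 0) =
            (inp t).a * Real.exp (1 / (m + 1)) *
              ∑ s ∈ Finset.range (t + 1), if f s = i then r ^ (inp s).cl else 0 := by
          rw [Finset.mul_sum]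
          refine Finset.sum_congr rfl fun s _ => ?_
          split_ifs <;> ring
        rw [e]
        refine (mul_le_mul_of_nonneg_left (hf2 i) (by positivity)).trans ?_
        refine le_trans (le_of_eq ?_) hκη
        rw [ha t ht]
        have := zpow_pos hr0 (p t)
        field_simp)
    rw [hKK] at hb
    have h3 : η * ∑ i, X m r inp N (inp t).a i (t + 1) ≤ η * (n * K) := by linarith
    exact le_of_mul_le_mul_left h3 hη
  have inv : ∀ t < N, ∃ s₀ ≤ t, (∀ s, s₀ ≤ s → s ≤ t → p s = p t) ∧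
      ∑ i, X m r inp N (inp t).a i s₀ ≤ n * K₀ := by
    intro t
    induction t with
    | zero =>
      intro _
      refine ⟨0, le_rfl, fun s _ hs => by rw [Nat.le_zero.1 hs], ?_⟩
      simp only [X_zero, Finset.sum_const, Finset.card_univ, Fintype.card_fin, nsmul_eq_mul]
      refine mul_le_mul_of_nonneg_left ?_ (Nat.cast_nonneg n)
      exact Real.one_le_exp (div_nonneg hlam0 hr1.le)
    | succ t ih =>
      intro ht
      have ih' := ih (by omega)
      rcases (hp t ht).eq_or_lt with heq | hlt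
      · obtain ⟨s₀, hs₀, hps, hb⟩ := ih'
        refine ⟨s₀, by omega, fun s h1 h2 => ?_, ?_⟩
        · rcases Nat.lt_or_ge s (t + 1) with h | h
          · rw [hps s h1 (by omega), heq]
          · rw [le_antisymm h2 h]
        · rw [ha _ ht, ← heq, ← ha t (by omega)]
          exact hb
      · refine ⟨t + 1, le_rfl, fun s h1 h2 => by rw [le_antisymm h2 h1], ?_⟩
        have hb := step t (by omega) ih'
        set β := r ^ (p t - p (t + 1)) with hβ
        have hβ0 : 0 < β := zpow_pos hr0 _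
        have hβr : β ≤ 1 / r := by
          rw [hβ, one_div, ← zpow_neg_one]
          exact zpow_le_zpow_right₀ hr.le (by omega)
        have hβ1 : β ≤ 1 := hβr.trans (by rw [div_le_one hr0]; exact hr.le)
        have hae : (inp (t + 1)).a = β * (inp t).a := by
          rw [ha _ ht, ha t (by omega), hβ, zpow_sub₀ hr0.ne']
          have := zpow_pos hr0 (p t)
          have := zpow_pos hr0 (p (t + 1))
          field_simp
        rw [hae]
        refine (sum_transfer hr0 inp N (hapos t (by omega)) hβ0 hβ1 (Real.exp_pos _) _ hb).trans ?_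
        refine mul_le_mul_of_nonneg_left ?_ (Nat.cast_nonneg n)
        rw [← Real.exp_mul, hK₀, Real.exp_le_exp]
        have h1 : 0 ≤ lam * r / (r - 1) := by positivity
        refine (mul_le_mul_of_nonneg_left hβr h1).trans (le_of_eq ?_)
        field_simp
  exact fun t ht => step t ht (inv t ht)

end Pool.Agent.Lib.MP_0e8720_lc
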