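import Pool.Agent.Lib.MP_0e8720_lc.Ladder

/-!
The deterministic potentials `Y` and their properties.
-/

namespace Pool.Agent.Lib.MP_0e8720_lc

open Classical MeasureTheory

variable {n m : ℕ} [NeZero n]

/-- sum of the ladder values of the used slots of machine `i` and class `c` -/
noncomputable def W (D : ℕ → J n) (Q : ℝ) (i : Fin n) (c : ℤ) (t : ℕ) (ω : Om n m) : ℝ :=
  ∑ s ∈ used D t ω,
    if s.2 = i then (if (D s.1).cl = c then Q ^ (pos D s.1 * (m + 1) + ω s) else 0) else 0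

/-- the potential of machine `i` and class `c` at time `t` -/
noncomputable def Y (m : ℕ) (D : ℕ → J n) (Q : ℝ) (i : Fin n) (c : ℤ) (t : ℕ) : ℝ :=
  1 + (m + 1) * (Q - 1) * ∫ ω, W D Q i c t ω ∂(Pm n m)

lemma W_congr {D D' : ℕ → J n} {t : ℕ} {ω ω' : Om n m} (h : ∀ s < t, D s = D' s)
    (hω : ∀ s : Slot n, s.1 < t → ω s = ω' s) (Q : ℝ) (i : Fin n) (c : ℤ) :
    W D Q i c t ω = W D' Q i c t ω' := by
  unfold W
  rw [← used_congr h hω]
  refine Finset.sum_congr rfl fun s hs => ?_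
  have hs1 := used_fst_lt D t ω s hs
  rw [h s.1 hs1, hω s hs1, pos_congr (fun s' hs' => h s' (by omega))]

lemma W_dep (D : ℕ → J n) (Q : ℝ) (i : Fin n) (c : ℤ) {t N : ℕ} (ht : t ≤ N) :
    Dep {s | s.1 < N} (W (m := m) D Q i c t) :=
  fun _ _ hω => W_congr (fun _ _ => rfl) (fun s hs => hω s (lt_of_lt_of_le hs ht)) Q i c

lemma Y_congr {D D' : ℕ → J n} {t : ℕ} (h : ∀ s < t, D s = D' s) (Q : ℝ) (i : Fin n) (c : ℤ) :
    Y m D Q i c t = Y m D' Q i c t := by
  unfold Y
  congr 3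
  funext ω
  exact W_congr h (fun _ _ => rfl) Q i c

lemma Y_eq (D : ℕ → J n) (Q : ℝ) (i : Fin n) (c : ℤ) {t N : ℕ} (ht : t ≤ N) :
    Y m D Q i c t = 1 + (m + 1) * (Q - 1) * Ex N (W (m := m) D Q i c t) := by
  rw [Y, integral_eq_Ex (W_dep D Q i c ht)]

lemma sum_used_mach (D : ℕ → J n) (t : ℕ) (ω : Om n m) (i : Fin n) (h : Slot n → ℝ) :
    (∑ s ∈ used D t ω, if s.2 = i then h s else 0) =
      ∑ t' ∈ Finset.range t, if (t', i) ∈ used D t ω then h (t', i) else 0 := by
  rw [← Finset.sum_filter, ← Finset.sum_filter]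
  refine Finset.sum_nbij' (fun s => s.1) (fun t' => (t', i)) ?_ ?_ ?_ ?_ ?_
  · intro s hs
    simp only [Finset.mem_filter, Finset.mem_range] at hs ⊢
    refine ⟨used_fst_lt D t ω s hs.1, ?_⟩
    rw [← hs.2]; exact hs.1
  · intro t' ht'
    simp only [Finset.mem_filter, Finset.mem_range] at ht' ⊢
    exact ⟨ht'.2, trivial⟩
  · intro s hs
    simp only [Finset.mem_filter] at hs
    rw [← hs.2]
  · intro t' _; rfl
  · intro s hs
    simp only [Finset.mem_filter] at hs
    rw [← hs.2]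

/-- the event that the slot is used when its rank is set to `v` -/
def Ev (D : ℕ → J n) (i : Fin n) (t : ℕ) (ω : Om n m) (t' : ℕ) (v : Fin (m + 1)) : Prop :=
  (t', i) ∈ used D t (Function.update ω (t', i) v)

/-- a random variable with mean `Y` -/
noncomputable def yy (D : ℕ → J n) (Q : ℝ) (i : Fin n) (c : ℤ) (t : ℕ) (ω : Om n m) : ℝ :=
  1 + ∑ r ∈ Finset.range (cnt D c t * (m + 1)),
    if flat D c (Ev D i t ω) r then (Q - 1) * Q ^ r else 0

lemma Y_eq_yy (D : ℕ → J n) (Q : ℝ) (i : Fin n) (c : ℤ) {t N : ℕ} (ht : t ≤ N) :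
    Y m D Q i c t = Ex N (yy (m := m) D Q i c t) := by
  rw [Y_eq D Q i c ht]
  have e1 : yy (m := m) D Q i c t = fun ω => 1 + ∑ t' ∈ Finset.range t, if (D t').cl = c then
        ∑ v : Fin (m + 1), (if Ev D i t ω t' v then
          (Q - 1) * Q ^ (pos D t' * (m + 1) + v) else 0) else 0 := by
    funext ω
    rw [yy, ← flat_sum D c (Ev D i t ω) (fun r => (Q - 1) * Q ^ r) t]
  have e2 : W (m := m) D Q i c t = fun ω => ∑ t' ∈ Finset.range t,
      if (t', i) ∈ used D t ω then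
        (if (D t').cl = c then Q ^ (pos D t' * (m + 1) + ω (t', i)) else 0) else 0 := by
    funext ω
    rw [W, sum_used_mach D t ω i
      (fun s => if (D s.1).cl = c then Q ^ (pos D s.1 * (m + 1) + ω s) else 0)]
  rw [e1, e2, Ex_add, Ex_const, Ex_sum, Ex_sum, Finset.mul_sum]
  congr 1
  refine Finset.sum_congr rfl fun t' ht' => ?_
  have ht'N : ((t', i) : Slot n).1 < N := lt_of_lt_of_le (Finset.mem_range.1 ht') ht
  by_cases hc : (D t').cl = c
  · simp only [hc, if_true]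
    rw [Ex_sum, mul_comm ((m : ℝ) + 1), mul_assoc, ← Ex_resample ht'N, Finset.mul_sum]
    refine Finset.sum_congr rfl fun v _ => ?_
    rw [← Ex_mul_left]
    congr 1
    funext ω
    simp only [Ev, Function.update_self]
    split_ifs <;> simp
  · simp [hc, Ex_const]

lemma W_nonneg (D : ℕ → J n) {Q : ℝ} (hQ : 0 ≤ Q) (i : Fin n) (c : ℤ) (t : ℕ) (ω : Om n m) :
    0 ≤ W D Q i c t ω :=
  Finset.sum_nonneg fun s _ => by split_ifs <;> positivity

lemma one_le_Y (D : ℕ → J n) {Q : ℝ} (hQ : 1 ≤ Q) (i : Fin n) (c : ℤ) (t : ℕ) :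
    1 ≤ Y m D Q i c t := by
  rw [Y_eq D Q i c (le_refl t)]
  have h1 := Ex_nonneg (N := t) (W_nonneg (m := m) D (by linarith : (0 : ℝ) ≤ Q) i c t)
  have h2 : 0 ≤ Q - 1 := by linarith
  have : 0 ≤ ((m : ℝ) + 1) * (Q - 1) * Ex t (W (m := m) D Q i c t) := by positivity
  linarith

lemma W_succ (D : ℕ → J n) (Q : ℝ) (i : Fin n) (c : ℤ) (t : ℕ) (ω : Om n m) :
    W D Q i c (t + 1) ω = W D Q i c t ω + if (choice D t ω).2 = i then
      (if (D t).cl = c then Q ^ (pos D (choice D t ω).1 * (m + 1) + ω (choice D t ω)) else 0)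
      else 0 := by
  rw [W, used_succ, Finset.sum_insert (choice_notMem D t ω), choice_cl, add_comm]
  rfl

lemma Y_succ (D : ℕ → J n) (Q : ℝ) (i : Fin n) (c : ℤ) {t N : ℕ} (ht : t < N) :
    Y m D Q i c (t + 1) = Y m D Q i c t + (m + 1) * (Q - 1) *
      Ex N (fun ω : Om n m => if (choice D t ω).2 = i then
      (if (D t).cl = c then Q ^ (pos D (choice D t ω).1 * (m + 1) + ω (choice D t ω)) else 0)
      else 0) := by
  rw [Y_eq D Q i c (show t + 1 ≤ N from ht), Y_eq D Q i c ht.le]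
  have : W (m := m) D Q i c (t + 1) = fun ω => W D Q i c t ω + if (choice D t ω).2 = i then
      (if (D t).cl = c then Q ^ (pos D (choice D t ω).1 * (m + 1) + ω (choice D t ω)) else 0)
      else 0 := funext fun ω => W_succ D Q i c t ω
  rw [this, Ex_add]
  ring

lemma Y_succ_ne (D : ℕ → J n) (Q : ℝ) (i : Fin n) {c : ℤ} {t : ℕ} (hc : (D t).cl ≠ c) :
    Y m D Q i c (t + 1) = Y m D Q i c t := by
  rw [Y_succ D Q i c (Nat.lt_succ_self t)]
  simp [hc, Ex_const]

lemma Y_le_succ (D : ℕ → J n) {Q : ℝ} (hQ : 1 ≤ Q) (i : Fin n) (c : ℤ) (t : ℕ) :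
    Y m D Q i c t ≤ Y m D Q i c (t + 1) := by
  rw [Y_succ D Q i c (Nat.lt_succ_self t)]
  have h2 : 0 ≤ Q - 1 := by linarith
  have h0 : 0 ≤ Q := by linarith
  have h1 := Ex_nonneg (N := t + 1) (f := fun ω : Om n m => if (choice D t ω).2 = i then
      (if (D t).cl = c then Q ^ (pos D (choice D t ω).1 * (m + 1) + ω (choice D t ω)) else 0)
      else 0) (fun ω => by split_ifs <;> positivity)
  have := mul_nonneg (mul_nonneg (by positivity : (0 : ℝ) ≤ m + 1) h2) h1
  linarith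

lemma Y_mono (D : ℕ → J n) {Q : ℝ} (hQ : 1 ≤ Q) (i : Fin n) (c : ℤ) {t t' : ℕ} (h : t ≤ t') :
    Y m D Q i c t ≤ Y m D Q i c t' := by
  induction h with
  | refl => exact le_rfl
  | step _ ih => exact ih.trans (Y_le_succ D hQ i c _)

lemma Y_zero (D : ℕ → J n) (Q : ℝ) (i : Fin n) (c : ℤ) : Y m D Q i c 0 = 1 := by
  simp [Y, W, used]

lemma Y_unseen (D : ℕ → J n) (Q : ℝ) (i : Fin n) {c : ℤ} {t : ℕ} (hc : ∀ s < t, (D s).cl ≠ c) :
    Y m D Q i c t = 1 := by
  induction t with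
  | zero => exact Y_zero D Q i c
  | succ t ih => rw [Y_succ_ne D Q i (hc t (by omega)), ih (fun s hs => hc s (by omega))]

/-- the expected price is at most the potential of any admissible machine -/
lemma Ex_paid_le (D : ℕ → J n) {t N : ℕ} (ht : t < N) {i : Fin n} (hi : i ∈ (D t).M)
    (hq : 1 < (D t).q) (hmu : 0 < (D t).mu i) :
    Ex N (paid (m := m) D t) ≤ (D t).mu i * Y m D (D t).q i (D t).cl (t + 1) := by
  rw [Y_eq_yy D _ i _ (show t + 1 ≤ N from ht), ← Ex_mul_left]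
  refine Ex_mono fun ω => ?_
  set Q := (D t).q with hQ
  set x := paid D t ω / (D t).mu i with hx
  have hxR : x ≤ Q ^ (cnt D (D t).cl (t + 1) * (m + 1)) := by
    rw [hx, div_le_iff₀ hmu, mul_comm]
    refine (paid_le_fresh D t ω hi).trans ?_
    unfold price
    refine mul_le_mul_of_nonneg_left (pow_le_pow_right₀ hq.le ?_) hmu.le
    rw [cnt_succ, if_pos rfl, add_mul, one_mul, pos_eq_cnt]
    have := (ω (t, i)).2
    simp only
    omega
  have hb : ∀ r < cnt D (D t).cl (t + 1) * (m + 1), Q ^ r < x →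
      flat D (D t).cl (Ev D i (t + 1) ω) r := by
    intro r hr hlt
    obtain ⟨t', ht', v, h1, rfl⟩ := flat_exists D _ _ r hr
    rw [flat_iff D _ _ h1]
    refine key_lemma D t ω (mem_allowed.2 ⟨by simp only; omega, h1, hi⟩) v ?_
    rw [hx, lt_div_iff₀ hmu, mul_comm] at hlt
    exact hlt
  have := ladder_lower hq _ _ hb
  rw [min_eq_left hxR, hx, div_le_iff₀ hmu, mul_comm] at this
  exact this

/-- change of exponent -/
lemma Y_transfer (D : ℕ → J n) {Q β : ℝ} (hQ : 1 < Q) (h0 : 0 ≤ β) (h1 : β ≤ 1) (i : Fin n)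
    (c : ℤ) (t : ℕ) : Y m D (Q ^ β) i c t ≤ Y m D Q i c t ^ β := by
  have hpos : 0 < Ex t (yy (m := m) D Q i c t) := by
    rw [← Y_eq_yy D Q i c le_rfl]
    exact lt_of_lt_of_le one_pos (one_le_Y D hQ.le i c t)
  rw [Y_eq_yy D _ i c le_rfl, Y_eq_yy D Q i c le_rfl]
  refine le_trans (Ex_mono fun ω => ?_) (Ex_rpow_le (fun ω => ?_) hpos h0 h1)
  · exact ladder_transfer hQ h0 h1 _ _
  · exact le_trans zero_le_one (ladder_bounds hQ _ _).1

/-- number of used slots of machine `i` and class `c` -/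
noncomputable def Nc (D : ℕ → J n) (i : Fin n) (c : ℤ) (t : ℕ) (ω : Om n m) : ℕ :=
  ((Finset.range t).filter (fun t' => (t', i) ∈ used D t ω ∧ (D t').cl = c)).card

lemma Nc_dep (D : ℕ → J n) (i : Fin n) (c : ℤ) (t : ℕ) :
    Dep {s : Slot n | (D s.1).cl = c} (Nc (m := m) D i c t) := by
  intro ω ω' hω
  unfold Nc
  congr 1
  refine Finset.filter_congr fun t' _ => ?_
  have := Finset.ext_iff.1 (used_class_congr D c (fun s hs => hω s hs) t) (t', i)
  simpa using this

lemma Ex_pow_Nc_le (D : ℕ → J n) {Q : ℝ} (hQ : 1 ≤ Q) (i : Fin n) (c : ℤ) {t N : ℕ} (ht : t ≤ N) :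
    Ex N (fun ω : Om n m => (Q ^ (m + 1)) ^ Nc D i c t ω) ≤ Q ^ (m + 1) * Y m D Q i c t := by
  set B := Q ^ (m + 1) with hB
  have hB1 : 1 ≤ B := one_le_pow₀ hQ
  have h := Ex_mono (N := N) (f := fun ω : Om n m => B ^ Nc D i c t ω)
    (g := fun ω => B + B * ((m + 1) * (Q - 1)) * W D Q i c t ω) (fun ω => by
      refine (count_bound D c hB1 (fun t' => (t', i) ∈ used D t ω) t).trans ?_
      refine add_le_add hB1 ?_
      rw [W, sum_used_mach D t ω i
        (fun s => if (D s.1).cl = c then Q ^ (pos D s.1 * (m + 1) + ω s) else 0), Finset.mul_sum]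
      refine Finset.sum_le_sum fun t' _ => ?_
      have hq := pow_sub_one_le hQ (m + 1)
      rw [← hB] at hq
      push_cast at hq
      have h2 : 0 ≤ Q - 1 := by linarith
      by_cases h1 : (t', i) ∈ used D t ω
      · by_cases h3 : (D t').cl = c
        · simp only [h1, h3, and_self, if_true]
          have h4 : B ^ pos D t' ≤ Q ^ (pos D t' * (m + 1) + ω (t', i)) := by
            rw [hB, ← pow_mul, mul_comm]
            exact pow_le_pow_right₀ hQ (Nat.le_add_right _ _)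
          have h5 : 0 ≤ B ^ pos D t' := by positivity
          calc (B - 1) * B ^ pos D t' ≤ (B * ((m + 1) * (Q - 1))) * B ^ pos D t' :=
                mul_le_mul_of_nonneg_right (by linarith) h5
            _ ≤ _ := mul_le_mul_of_nonneg_left h4 (by positivity)
        · simp [h3]
      · simp [h1])
  rw [Ex_add, Ex_const, Ex_mul_left] at h
  rw [Y_eq D Q i c ht]
  refine h.trans (le_of_eq ?_)
  ring

/-- the weight of the jobs put on machine `i`, rounded by classes -/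
lemma rounded_load (D : ℕ → J n) (i : Fin n) (t : ℕ) (ω : Om n m) (Γ : Finset ℤ)
    (hΓ : ∀ s < t, (D s).cl ∈ Γ) (g : ℤ → ℝ) :
    (∑ τ ∈ Finset.range t, if (choice D τ ω).2 = i then g (D τ).cl else 0) =
      ∑ c ∈ Γ, g c * Nc D i c t ω := by
  have h1 := sum_used D t ω (fun s => if s.2 = i then g (D s.1).cl else 0)
  simp only [choice_cl] at h1
  rw [← h1, sum_used_mach D t ω i (fun s => g (D s.1).cl)]
  simp only [Nc, Finset.card_filter, Nat.cast_sum, Finset.mul_sum]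
  rw [Finset.sum_comm]
  refine Finset.sum_congr rfl fun t' ht' => ?_
  by_cases h : (t', i) ∈ used D t ω
  · simp only [h, true_and, if_true]
    rw [Finset.sum_eq_single_of_mem (D t').cl (hΓ t' (Finset.mem_range.1 ht'))]
    · simp
    · intro c _ hc
      simp [Ne.symm hc]
  · simp [h]

end Pool.Agent.Lib.MP_0e8720_lc
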