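import Mathlib

/-!
Finite averages over rank vectors, and their relation with the product measure.
-/

namespace Pool.Agent.Lib.MP_0e8720_lc

open Classical MeasureTheory

/-- slots: creation time and machine -/
abbrev Slot (n : ℕ) : Type := ℕ × Fin n

/-- rank vectors -/
abbrev Om (n m : ℕ) : Type := Slot n → Fin (m + 1)

variable {n m : ℕ}

/-- truncation at time `N` -/
noncomputable def trunc (N : ℕ) (ω : Om n m) : Om n m := fun s => if s.1 < N then ω s else 0

/-- the slots created before time `N` -/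
def slotsLt (n N : ℕ) : Finset (Slot n) := Finset.range N ×ˢ Finset.univ

lemma mem_slotsLt {N : ℕ} {s : Slot n} : s ∈ slotsLt n N ↔ s.1 < N := by
  simp [slotsLt]

/-- extension by zero -/
noncomputable def extz (N : ℕ) (x : slotsLt n N → Fin (m + 1)) : Om n m :=
  fun s => if h : s ∈ slotsLt n N then x ⟨s, h⟩ else 0

lemma trunc_eq (N : ℕ) (ω : Om n m) : trunc N ω = extz N ((slotsLt n N).restrict ω) := by
  funext s
  by_cases h : s.1 < N
  · simp [trunc, extz, h, mem_slotsLt]
  · simp [trunc, extz, h, mem_slotsLt]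

/-- rank vectors vanishing from time `N` on -/
noncomputable def Os (n m N : ℕ) : Finset (Om n m) := Finset.univ.image (extz (n := n) (m := m) N)

lemma mem_Os {N : ℕ} {ω : Om n m} : ω ∈ Os n m N ↔ ∀ s : Slot n, N ≤ s.1 → ω s = 0 := by
  constructor
  · intro h s hs
    obtain ⟨x, -, rfl⟩ := Finset.mem_image.1 h
    have : s ∉ slotsLt n N := by rw [mem_slotsLt]; omega
    simp [extz, this]
  · intro h
    refine Finset.mem_image.2 ⟨(slotsLt n N).restrict ω, Finset.mem_univ _, ?_⟩
    rw [← trunc_eq]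
    funext s
    by_cases hs : s.1 < N
    · simp [trunc, hs]
    · simp [trunc, hs, h s (by omega)]

lemma Os_nonempty (N : ℕ) : (Os n m N).Nonempty := ⟨fun _ => 0, mem_Os.2 fun _ _ => rfl⟩

/-- finite expectation -/
noncomputable def Ex (N : ℕ) (f : Om n m → ℝ) : ℝ := (∑ ω ∈ Os n m N, f ω) / (Os n m N).card

lemma card_Os_pos (N : ℕ) : (0 : ℝ) < (Os n m N).card := by
  exact_mod_cast (Os_nonempty N).card_pos

lemma Ex_mono {N : ℕ} {f g : Om n m → ℝ} (h : ∀ ω, f ω ≤ g ω) : Ex N f ≤ Ex N g :=
  div_le_div_of_nonneg_right (Finset.sum_le_sum fun ω _ => h ω) (card_Os_pos N).le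

lemma Ex_const (N : ℕ) (c : ℝ) : Ex (n := n) (m := m) N (fun _ => c) = c := by
  have := (card_Os_pos (n := n) (m := m) N).ne'
  simp only [Ex, Finset.sum_const, nsmul_eq_mul]
  field_simp

lemma Ex_add (N : ℕ) (f g : Om n m → ℝ) : Ex N (fun ω => f ω + g ω) = Ex N f + Ex N g := by
  simp only [Ex, Finset.sum_add_distrib, add_div]

lemma Ex_mul_left (N : ℕ) (c : ℝ) (f : Om n m → ℝ) : Ex N (fun ω => c * f ω) = c * Ex N f := by
  simp only [Ex, ← Finset.mul_sum, mul_div_assoc]

lemma Ex_sum {ι : Type*} (N : ℕ) (s : Finset ι) (f : ι → Om n m → ℝ) :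
    Ex N (fun ω => ∑ i ∈ s, f i ω) = ∑ i ∈ s, Ex N (f i) := by
  simp only [Ex]
  rw [Finset.sum_comm, Finset.sum_div]

lemma Ex_nonneg {N : ℕ} {f : Om n m → ℝ} (h : ∀ ω, 0 ≤ f ω) : 0 ≤ Ex N f := by
  have := Ex_mono (N := N) (f := fun _ => 0) (g := f) h
  rwa [Ex_const] at this

/-- resampling one coordinate -/
lemma Ex_resample {N : ℕ} {s : Slot n} (hs : s.1 < N) (F : Om n m → ℝ) :
    ∑ v : Fin (m + 1), Ex N (fun ω => F (Function.update ω s v)) = (m + 1 : ℝ) * Ex N F := by
  have key : ∑ p ∈ Os n m N ×ˢ (Finset.univ : Finset (Fin (m + 1))), F (Function.update p.1 s p.2)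
      = ∑ p ∈ Os n m N ×ˢ (Finset.univ : Finset (Fin (m + 1))), F p.1 := by
    have hmem : ∀ p ∈ Os n m N ×ˢ (Finset.univ : Finset (Fin (m + 1))),
        (Function.update p.1 s p.2, p.1 s) ∈ Os n m N ×ˢ (Finset.univ : Finset (Fin (m + 1))) := by
      intro p hp
      rw [Finset.mem_product] at hp ⊢
      refine ⟨mem_Os.2 fun s' hs' => ?_, Finset.mem_univ _⟩
      have hne : s' ≠ s := by rintro rfl; omega
      simp only [Function.update_of_ne hne]
      exact mem_Os.1 hp.1 s' hs'
    refine Finset.sum_nbij' (fun p => (Function.update p.1 s p.2, p.1 s))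
      (fun p => (Function.update p.1 s p.2, p.1 s)) hmem hmem ?_ ?_ ?_
    · intro p _; simp
    · intro p _; simp
    · intro p _; rfl
  rw [Finset.sum_product, Finset.sum_product] at key
  simp only [Finset.sum_const, Finset.card_univ, Fintype.card_fin, nsmul_eq_mul] at key
  simp only [Ex]
  rw [← Finset.sum_div, Finset.sum_comm, key, ← Finset.mul_sum]
  push_cast
  ring

/-- `f` depends only on the coordinates in `S` -/
def Dep {α : Type*} (S : Set (Slot n)) (f : Om n m → α) : Prop :=
  ∀ ω ω' : Om n m, (∀ s ∈ S, ω s = ω' s) → f ω = f ω'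

/-- independence of functions of disjoint sets of coordinates -/
lemma Ex_mul_of_dep {N : ℕ} {S : Set (Slot n)} {f g : Om n m → ℝ} (hf : Dep S f)
    (hg : Dep Sᶜ g) : Ex N (fun ω => f ω * g ω) = Ex N f * Ex N g := by
  have key : ∑ p ∈ Os n m N ×ˢ Os n m N, f p.1 * g p.2
      = ∑ p ∈ Os n m N ×ˢ Os n m N, f p.1 * g p.1 := by
    have hmem : ∀ p ∈ Os n m N ×ˢ Os n m N,
        (S.piecewise p.1 p.2, S.piecewise p.2 p.1) ∈ Os n m N ×ˢ Os n m N := by
      intro p hp
      rw [Finset.mem_product] at hp ⊢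
      have h1 := mem_Os.1 hp.1
      have h2 := mem_Os.1 hp.2
      constructor
      · refine mem_Os.2 fun s hs => ?_
        by_cases h : s ∈ S <;> simp [h, h1 s hs, h2 s hs]
      · refine mem_Os.2 fun s hs => ?_
        by_cases h : s ∈ S <;> simp [h, h1 s hs, h2 s hs]
    have hinv : ∀ p : Om n m × Om n m,
        (S.piecewise (S.piecewise p.1 p.2) (S.piecewise p.2 p.1),
          S.piecewise (S.piecewise p.2 p.1) (S.piecewise p.1 p.2)) = p := by
      intro p
      ext s <;> by_cases h : s ∈ S <;> simp [h]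
    refine Finset.sum_nbij' (fun p => (S.piecewise p.1 p.2, S.piecewise p.2 p.1))
      (fun p => (S.piecewise p.1 p.2, S.piecewise p.2 p.1)) hmem hmem
      (fun p _ => hinv p) (fun p _ => hinv p) ?_
    intro p _
    simp only
    rw [hf (S.piecewise p.1 p.2) p.1 (fun s hs => by simp [hs]),
      hg (S.piecewise p.1 p.2) p.2 (fun s hs => by
        have : s ∉ S := hs
        simp [this])]
  rw [Finset.sum_product, Finset.sum_product] at key
  simp only [Finset.sum_const, nsmul_eq_mul, ← Finset.mul_sum, ← Finset.sum_mul] at key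
  have := (card_Os_pos (n := n) (m := m) N).ne'
  simp only [Ex]
  field_simp
  rw [key]
  ring

/-- independence for a finite family of functions of pairwise disjoint blocks -/
lemma Ex_prod_of_dep {ι : Type*} {N : ℕ} (cl : Slot n → ι) (Γ : Finset ι) (f : ι → Om n m → ℝ)
    (hf : ∀ c, Dep {s | cl s = c} (f c)) :
    Ex N (fun ω => ∏ c ∈ Γ, f c ω) = ∏ c ∈ Γ, Ex N (f c) := by
  induction Γ using Finset.induction_on with
  | empty => simp [Ex_const]
  | insert c Γ hc ih =>
    simp only [Finset.prod_insert hc]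
    rw [Ex_mul_of_dep (hf c), ih]
    intro ω ω' h
    refine Finset.prod_congr rfl fun c' hc' => hf c' ω ω' fun s hs => h s ?_
    intro hs'
    have h1 : cl s = c' := hs
    have h2 : cl s = c := hs'
    exact hc (h2 ▸ h1 ▸ hc')

/-- tangent form of Jensen's inequality for `x ↦ x ^ β` -/
lemma rpow_le_tangent {x Z β : ℝ} (hx : 0 ≤ x) (hZ : 0 < Z) (h0 : 0 ≤ β) (h1 : β ≤ 1) :
    x ^ β ≤ Z ^ β * (1 + β * (x / Z - 1)) := by
  have h := rpow_one_add_le_one_add_mul_self (s := x / Z - 1)
    (by have := div_nonneg hx hZ.le; linarith) h0 h1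
  have e : (1 + (x / Z - 1)) = x / Z := by ring
  rw [e, Real.div_rpow hx hZ.le, div_le_iff₀ (Real.rpow_pos_of_pos hZ β)] at h
  linarith

lemma Ex_rpow_le {N : ℕ} {f : Om n m → ℝ} {β : ℝ} (hf : ∀ ω, 0 ≤ f ω) (hZ : 0 < Ex N f)
    (h0 : 0 ≤ β) (h1 : β ≤ 1) : Ex N (fun ω => f ω ^ β) ≤ Ex N f ^ β := by
  set Z := Ex N f with hZdef
  have h := Ex_mono (N := N) (f := fun ω => f ω ^ β)
    (g := fun ω => Z ^ β * (1 - β) + (Z ^ β * β / Z) * f ω) (fun ω => by
      have := rpow_le_tangent (hf ω) hZ h0 h1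
      refine this.trans (le_of_eq ?_)
      field_simp
      ring)
  rw [Ex_add, Ex_const, Ex_mul_left, ← hZdef] at h
  refine h.trans (le_of_eq ?_)
  field_simp
  ring

/-- the product of uniform measures -/
noncomputable def Pm (n m : ℕ) : Measure (Om n m) :=
  Measure.infinitePi (fun _ : Slot n => ProbabilityTheory.uniformOn (Set.univ : Set (Fin (m + 1))))

instance instProbPm (n m : ℕ) : IsProbabilityMeasure (Pm n m) := by
  unfold Pm
  infer_instance

lemma dep_trunc {α : Type*} {N : ℕ} {f : Om n m → α} (hf : Dep {s | s.1 < N} f) (ω : Om n m) :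
    f ω = f (trunc N ω) :=
  hf _ _ fun s hs => by
    have : s.1 < N := hs
    simp [trunc, this]

lemma measurable_of_dep {α : Type*} [MeasurableSpace α] {N : ℕ} {f : Om n m → α}
    (hf : Dep {s | s.1 < N} f) : Measurable f := by
  have : f = (fun x => f (extz N x)) ∘ (slotsLt n N).restrict := by
    funext ω
    simp only [Function.comp]
    rw [← trunc_eq, ← dep_trunc hf]
  rw [this]
  exact (measurable_of_finite _).comp (Finset.measurable_restrict _)

lemma integral_eq_sum {N : ℕ} {f : Om n m → ℝ} (hf : Dep {s | s.1 < N} f) :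
    ∫ ω, f ω ∂(Pm n m) = (∑ x ∈ Os n m N, f x) * ((1 : ℝ) / (m + 1)) ^ (slotsLt n N).card := by
  set cyl : Om n m → Set (Om n m) := fun x => Set.pi (slotsLt n N : Set (Slot n)) (fun s => {x s})
    with hcyl
  have hmeas : ∀ x, MeasurableSet (cyl x) := fun x =>
    MeasurableSet.pi (Finset.countable_toSet _) fun s _ => MeasurableSet.singleton _
  have hrepr : f = fun ω => ∑ x ∈ Os n m N, (cyl x).indicator (fun _ => f x) ω := by
    funext ω
    have hmem : trunc N ω ∈ Os n m N := mem_Os.2 fun s hs => by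
      have : ¬ s.1 < N := by omega
      simp [trunc, this]
    rw [Finset.sum_eq_single_of_mem (trunc N ω) hmem]
    · rw [Set.indicator_of_mem, ← dep_trunc hf]
      intro s hs
      have : s.1 < N := mem_slotsLt.1 hs
      simp [trunc, this]
    · intro x hx hne
      rw [Set.indicator_of_notMem]
      intro hc
      apply hne
      funext s
      by_cases hs : s.1 < N
      · have := hc s (mem_slotsLt.2 hs)
        simp only [Set.mem_singleton_iff] at this
        simp [trunc, hs, this]
      · simp [trunc, hs, mem_Os.1 hx s (by omega)]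
  have hmu : ∀ x, (Pm n m).real (cyl x) = ((1 : ℝ) / (m + 1)) ^ (slotsLt n N).card := by
    intro x
    rw [Measure.real, hcyl]
    simp only [Pm]
    rw [Measure.infinitePi_pi _ (fun s _ => MeasurableSet.singleton _)]
    simp [ProbabilityTheory.uniformOn_univ]
    norm_cast
  conv_lhs => rw [hrepr]
  rw [integral_finsetSum]
  · rw [Finset.sum_mul]
    refine Finset.sum_congr rfl fun x _ => ?_
    rw [integral_indicator_const _ (hmeas x), hmu, smul_eq_mul, mul_comm]
  · intro x _
    exact (integrable_const _).indicator (hmeas x)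

lemma integral_eq_Ex {N : ℕ} {f : Om n m → ℝ} (hf : Dep {s | s.1 < N} f) :
    ∫ ω, f ω ∂(Pm n m) = Ex N f := by
  have h1 := integral_eq_sum (n := n) (m := m) (N := N) (f := fun _ => 1) (fun _ _ _ => rfl)
  simp only [integral_const, probReal_univ, smul_eq_mul, mul_one, Finset.sum_const,
    nsmul_eq_mul] at h1
  rw [integral_eq_sum hf, Ex]
  have := (card_Os_pos (n := n) (m := m) N).ne'
  have h2 : ((1 : ℝ) / (m + 1)) ^ (slotsLt n N).card = 1 / (Os n m N).card := by
    field_simp
    linarith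
  rw [h2]
  ring

lemma Dep.mono {α : Type*} {S T : Set (Slot n)} {f : Om n m → α} (hf : Dep S f) (h : S ⊆ T) :
    Dep T f := fun ω ω' hω => hf ω ω' fun s hs => hω s (h hs)

end Pool.Agent.Lib.MP_0e8720_lc
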