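import Pool.Agent.Lib.MP_0e8720_lc.Prob

/-!
The generic ranking run: every job takes the cheapest free slot of its class.
-/

namespace Pool.Agent.Lib.MP_0e8720_lc

open Classical

/-- the data attached to one job: admissible machines, class, ratio, multipliers -/
structure J (n : ℕ) where
  M : Finset (Fin n)
  cl : ℤ
  q : ℝ
  mu : Fin n → ℝ

variable {n m : ℕ} [NeZero n]

/-- ladder position of the slots created at time `t` -/
noncomputable def pos (D : ℕ → J n) (t : ℕ) : ℕ :=
  ((Finset.range t).filter (fun s => (D s).cl = (D t).cl)).card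

/-- slots that job `t` may use -/
noncomputable def allowed (D : ℕ → J n) (t : ℕ) : Finset (Slot n) :=
  ((Finset.range (t + 1)).filter (fun s => (D s).cl = (D t).cl)) ×ˢ (D t).M

/-- price of slot `s` with rank `v` for job `t` -/
noncomputable def price (D : ℕ → J n) (t : ℕ) (s : Slot n) (v : Fin (m + 1)) : ℝ :=
  (D t).mu s.2 * (D t).q ^ (pos D s.1 * (m + 1) + v)

/-- price with tie breaking -/
noncomputable def key (D : ℕ → J n) (t : ℕ) (ω : Om n m) (s : Slot n) : ℝ ×ₗ (ℕ ×ₗ Fin n) :=
  toLex (price D t s (ω s), toLex s)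

/-- a minimiser -/
noncomputable def ch (A : Finset (Slot n)) (k : Slot n → ℝ ×ₗ (ℕ ×ₗ Fin n)) (d : Slot n) : Slot n :=
  if h : A.Nonempty then (Finset.exists_min_image A k h).choose else d

/-- used slots before time `t` -/
noncomputable def used (D : ℕ → J n) : ℕ → Om n m → Finset (Slot n)
  | 0, _ => ∅
  | t + 1, ω => insert (ch (allowed D t \ used D t ω) (key D t ω) (t, 0)) (used D t ω)

/-- the slot chosen by job `t` -/
noncomputable def choice (D : ℕ → J n) (t : ℕ) (ω : Om n m) : Slot n :=
  ch (allowed D t \ used D t ω) (key D t ω) (t, 0)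

omit [NeZero n] in
lemma ch_spec {A : Finset (Slot n)} (k : Slot n → ℝ ×ₗ (ℕ ×ₗ Fin n)) (d : Slot n)
    (h : A.Nonempty) : ch A k d ∈ A ∧ ∀ s ∈ A, k (ch A k d) ≤ k s := by
  rw [ch, dif_pos h]
  exact (Finset.exists_min_image A k h).choose_spec

omit [NeZero n] in
lemma ch_empty {A : Finset (Slot n)} (k : Slot n → ℝ ×ₗ (ℕ ×ₗ Fin n)) (d : Slot n)
    (h : ¬ A.Nonempty) : ch A k d = d := by
  rw [ch, dif_neg h]

omit [NeZero n] in
lemma key_inj {D D' : ℕ → J n} {t t' : ℕ} {ω ω' : Om n m} {s s' : Slot n}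
    (h : key D t ω s = key D' t' ω' s') : s = s' := by
  simp only [key, toLex_inj, Prod.mk.injEq] at h
  exact h.2

omit [NeZero n] in
lemma price_le_of_key_le {D : ℕ → J n} {t : ℕ} {ω : Om n m} {s s' : Slot n}
    (h : key D t ω s ≤ key D t ω s') : price D t s (ω s) ≤ price D t s' (ω s') := by
  simp only [key, Prod.Lex.toLex_le_toLex] at h
  rcases h with h | h
  · exact h.le
  · exact h.1.le

omit [NeZero n] in
lemma ch_congr {A : Finset (Slot n)} {D D' : ℕ → J n} {t : ℕ} {ω ω' : Om n m} (d : Slot n)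
    (h : ∀ s ∈ A, key D t ω s = key D' t ω' s) : ch A (key D t ω) d = ch A (key D' t ω') d := by
  by_cases hA : A.Nonempty
  · obtain ⟨h1, h2⟩ := ch_spec (key D t ω) d hA
    obtain ⟨h3, h4⟩ := ch_spec (key D' t ω') d hA
    have e1 := h2 _ h3
    have e2 := h4 _ h1
    rw [← h _ h1, ← h _ h3] at e2
    exact key_inj (le_antisymm e1 e2)
  · rw [ch_empty _ _ hA, ch_empty _ _ hA]

omit [NeZero n] in
lemma mem_allowed {D : ℕ → J n} {t : ℕ} {s : Slot n} :
    s ∈ allowed D t ↔ s.1 ≤ t ∧ (D s.1).cl = (D t).cl ∧ s.2 ∈ (D t).M := by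
  simp only [allowed, Finset.mem_product, Finset.mem_filter, Finset.mem_range]
  constructor
  · rintro ⟨⟨h1, h2⟩, h3⟩; exact ⟨by omega, h2, h3⟩
  · rintro ⟨h1, h2, h3⟩; exact ⟨⟨by omega, h2⟩, h3⟩

lemma used_succ (D : ℕ → J n) (t : ℕ) (ω : Om n m) :
    used D (t + 1) ω = insert (choice D t ω) (used D t ω) := rfl

lemma choice_fst_le (D : ℕ → J n) (t : ℕ) (ω : Om n m) : (choice D t ω).1 ≤ t := by
  by_cases h : (allowed D t \ used D t ω).Nonempty
  · exact (mem_allowed.1 (Finset.mem_sdiff.1 (ch_spec _ _ h).1).1).1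
  · rw [choice, ch_empty _ _ h]

lemma choice_cl (D : ℕ → J n) (t : ℕ) (ω : Om n m) : (D (choice D t ω).1).cl = (D t).cl := by
  by_cases h : (allowed D t \ used D t ω).Nonempty
  · exact (mem_allowed.1 (Finset.mem_sdiff.1 (ch_spec _ _ h).1).1).2.1
  · rw [choice, ch_empty _ _ h]

lemma used_fst_lt (D : ℕ → J n) (t : ℕ) (ω : Om n m) : ∀ s ∈ used D t ω, s.1 < t := by
  induction t with
  | zero => simp [used]
  | succ t ih =>
    intro s hs
    rw [used_succ, Finset.mem_insert] at hs
    rcases hs with rfl | hs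
    · have := choice_fst_le D t ω; omega
    · have := ih s hs; omega

lemma choice_notMem (D : ℕ → J n) (t : ℕ) (ω : Om n m) : choice D t ω ∉ used D t ω := by
  by_cases h : (allowed D t \ used D t ω).Nonempty
  · exact (Finset.mem_sdiff.1 (ch_spec _ _ h).1).2
  · rw [choice, ch_empty _ _ h]
    intro hc
    exact lt_irrefl _ (used_fst_lt D t ω _ hc)

lemma fresh_mem {D : ℕ → J n} {t : ℕ} (ω : Om n m) {i : Fin n} (hi : i ∈ (D t).M) :
    (t, i) ∈ allowed D t \ used D t ω :=
  Finset.mem_sdiff.2 ⟨mem_allowed.2 ⟨le_rfl, rfl, hi⟩,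
    fun hc => lt_irrefl _ (used_fst_lt D t ω _ hc)⟩

lemma choice_spec {D : ℕ → J n} {t : ℕ} (ω : Om n m) (h : (allowed D t \ used D t ω).Nonempty) :
    choice D t ω ∈ allowed D t \ used D t ω ∧
      ∀ s ∈ allowed D t \ used D t ω, key D t ω (choice D t ω) ≤ key D t ω s :=
  ch_spec _ _ h

lemma choice_mem_M {D : ℕ → J n} {t : ℕ} (ω : Om n m) (h : (D t).M.Nonempty) :
    (choice D t ω).2 ∈ (D t).M := by
  obtain ⟨i, hi⟩ := h
  exact (mem_allowed.1 (Finset.mem_sdiff.1 (choice_spec ω ⟨_, fresh_mem ω hi⟩).1).1).2.2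

lemma used_mono (D : ℕ → J n) (ω : Om n m) {t t' : ℕ} (h : t ≤ t') :
    used D t ω ⊆ used D t' ω := by
  induction h with
  | refl => exact subset_rfl
  | step _ ih => exact ih.trans (Finset.subset_insert _ _)

omit [NeZero n] in
lemma pos_congr {D D' : ℕ → J n} {t : ℕ} (h : ∀ s ≤ t, D s = D' s) : pos D t = pos D' t := by
  unfold pos
  congr 1
  refine Finset.filter_congr fun s hs => ?_
  rw [h s (Finset.mem_range.1 hs).le, h t le_rfl]

omit [NeZero n] in
lemma allowed_congr {D D' : ℕ → J n} {t : ℕ} (h : ∀ s ≤ t, D s = D' s) :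
    allowed D t = allowed D' t := by
  ext s
  simp only [mem_allowed]
  refine and_congr_right fun hs => ?_
  rw [h s.1 hs, h t le_rfl]

/-- locality in the data and in the ranks -/
lemma choice_congr_aux {D D' : ℕ → J n} {t : ℕ} {ω ω' : Om n m} (h : ∀ s ≤ t, D s = D' s)
    (hω : ∀ s : Slot n, s.1 ≤ t → ω s = ω' s) (hu : used D t ω = used D' t ω') :
    choice D t ω = choice D' t ω' := by
  unfold choice
  rw [← hu, ← allowed_congr h]
  refine ch_congr _ fun s hs => ?_
  have hs1 := (mem_allowed.1 (Finset.mem_sdiff.1 hs).1).1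
  simp only [key, price]
  rw [h t le_rfl, hω s hs1, pos_congr (fun s' hs' => h s' (hs'.trans hs1))]

lemma used_congr {D D' : ℕ → J n} {t : ℕ} {ω ω' : Om n m} (h : ∀ s < t, D s = D' s)
    (hω : ∀ s : Slot n, s.1 < t → ω s = ω' s) : used D t ω = used D' t ω' := by
  induction t with
  | zero => rfl
  | succ t ih =>
    have hu := ih (fun s hs => h s (by omega)) (fun s hs => hω s (by omega))
    rw [used_succ, used_succ, hu,
      choice_congr_aux (fun s hs => h s (by omega)) (fun s hs => hω s (by omega)) hu]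

lemma choice_congr {D D' : ℕ → J n} {t : ℕ} {ω ω' : Om n m} (h : ∀ s ≤ t, D s = D' s)
    (hω : ∀ s : Slot n, s.1 ≤ t → ω s = ω' s) : choice D t ω = choice D' t ω' :=
  choice_congr_aux h hω (used_congr (fun s hs => h s hs.le) (fun s hs => hω s hs.le))

/-- the used slots of one class depend only on the ranks of that class -/
lemma used_class_congr (D : ℕ → J n) (c : ℤ) {ω ω' : Om n m}
    (hω : ∀ s : Slot n, (D s.1).cl = c → ω s = ω' s) (t : ℕ) :
    (used D t ω).filter (fun s => (D s.1).cl = c) =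
      (used D t ω').filter (fun s => (D s.1).cl = c) := by
  induction t with
  | zero => rfl
  | succ t ih =>
    rw [used_succ, used_succ, Finset.filter_insert, Finset.filter_insert, choice_cl, choice_cl, ih]
    by_cases hc : (D t).cl = c
    · have hA : allowed D t \ used D t ω = allowed D t \ used D t ω' := by
        ext s
        simp only [Finset.mem_sdiff]
        refine and_congr_right fun hs => not_congr ?_
        have hcl : (D s.1).cl = c := (mem_allowed.1 hs).2.1.trans hc
        have := Finset.ext_iff.1 ih s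
        simpa [hcl] using this
      have hch : choice D t ω = choice D t ω' := by
        unfold choice
        rw [← hA]
        refine ch_congr _ fun s hs => ?_
        have hcl : (D s.1).cl = c := (mem_allowed.1 (Finset.mem_sdiff.1 hs).1).2.1.trans hc
        simp only [key]
        rw [hω s hcl]
      rw [hch]
    · simp [hc]

/-- comparison of two runs whose ranks differ only at a slot unused in the second run -/
lemma used_subset_insert (D : ℕ → J n) {ω ω' : Om n m} {s : Slot n}
    (hω : ∀ s' ≠ s, ω s' = ω' s') (t : ℕ) (hs : s ∉ used D t ω') :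
    used D t ω ⊆ insert s (used D t ω') := by
  induction t with
  | zero => simp [used]
  | succ t ih =>
    rw [used_succ, Finset.mem_insert, not_or] at hs
    have ih' := ih hs.2
    intro x hx
    rw [used_succ, Finset.mem_insert] at hx
    rw [used_succ]
    rcases hx with rfl | hx
    · by_contra hc
      simp only [Finset.mem_insert, not_or] at hc
      obtain ⟨h1, h2, h3⟩ := hc
      by_cases hA : (allowed D t \ used D t ω).Nonempty
      · obtain ⟨a1, a2⟩ := choice_spec ω hA
        have b0 : choice D t ω ∈ allowed D t \ used D t ω' :=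
          Finset.mem_sdiff.2 ⟨(Finset.mem_sdiff.1 a1).1, h3⟩
        obtain ⟨b1, b2⟩ := choice_spec ω' ⟨_, b0⟩
        have a0 : choice D t ω' ∈ allowed D t \ used D t ω := by
          refine Finset.mem_sdiff.2 ⟨(Finset.mem_sdiff.1 b1).1, fun hc => ?_⟩
          rcases Finset.mem_insert.1 (ih' hc) with h | h
          · exact hs.1 h.symm
          · exact (Finset.mem_sdiff.1 b1).2 h
        have e1 := a2 _ a0
        have e2 := b2 _ b0
        have k1 : key D t ω' (choice D t ω) = key D t ω (choice D t ω) := by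
          simp only [key]; rw [hω _ h1]
        have k2 : key D t ω' (choice D t ω') = key D t ω (choice D t ω') := by
          simp only [key]; rw [hω _ (Ne.symm hs.1)]
        rw [k1, k2] at e2
        exact h2 (key_inj (le_antisymm e1 e2))
      · have hM : ¬ (allowed D t \ used D t ω').Nonempty := by
          rintro ⟨y, hy⟩
          exact hA ⟨_, fresh_mem ω (mem_allowed.1 (Finset.mem_sdiff.1 hy).1).2.2⟩
        apply h2
        rw [choice, choice, ch_empty _ _ hA, ch_empty _ _ hM]
    · rcases Finset.mem_insert.1 (ih' hx) with h | h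
      · exact Finset.mem_insert.2 (Or.inl h)
      · exact Finset.mem_insert_of_mem (Finset.mem_insert_of_mem h)

/-- the price paid by job `t` -/
noncomputable def paid (D : ℕ → J n) (t : ℕ) (ω : Om n m) : ℝ :=
  price D t (choice D t ω) (ω (choice D t ω))

/-- Key lemma (monotonicity of ranking). -/
lemma key_lemma (D : ℕ → J n) (t : ℕ) (ω : Om n m) {s : Slot n} (hs : s ∈ allowed D t)
    (v : Fin (m + 1)) (h : price D t s v < paid D t ω) :
    s ∈ used D (t + 1) (Function.update ω s v) := by
  by_contra hc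
  set ω' := Function.update ω s v with hω'
  have hω : ∀ s' ≠ s, ω s' = ω' s' := fun s' hs' => by simp [hω', hs']
  rw [used_succ, Finset.mem_insert, not_or] at hc
  have hsub := used_subset_insert D hω t hc.2
  have b0 : s ∈ allowed D t \ used D t ω' := Finset.mem_sdiff.2 ⟨hs, hc.2⟩
  obtain ⟨b1, b2⟩ := choice_spec ω' ⟨_, b0⟩
  have a0 : choice D t ω' ∈ allowed D t \ used D t ω := by
    refine Finset.mem_sdiff.2 ⟨(Finset.mem_sdiff.1 b1).1, fun hc' => ?_⟩
    rcases Finset.mem_insert.1 (hsub hc') with h | h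
    · exact hc.1 h.symm
    · exact (Finset.mem_sdiff.1 b1).2 h
  obtain ⟨-, a2⟩ := choice_spec ω ⟨_, a0⟩
  have e1 := price_le_of_key_le (a2 _ a0)
  have e2 := price_le_of_key_le (b2 _ b0)
  rw [← hω _ (Ne.symm hc.1)] at e2
  have e3 : ω' s = v := by simp [hω']
  rw [e3] at e2
  unfold paid at h
  linarith

lemma paid_le_fresh (D : ℕ → J n) (t : ℕ) (ω : Om n m) {i : Fin n} (hi : i ∈ (D t).M) :
    paid D t ω ≤ price D t (t, i) (ω (t, i)) :=
  price_le_of_key_le ((choice_spec ω ⟨_, fresh_mem ω hi⟩).2 _ (fresh_mem ω hi))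

/-- sums over used slots are sums over jobs -/
lemma sum_used (D : ℕ → J n) (t : ℕ) (ω : Om n m) (f : Slot n → ℝ) :
    ∑ s ∈ used D t ω, f s = ∑ τ ∈ Finset.range t, f (choice D τ ω) := by
  induction t with
  | zero => simp [used]
  | succ t ih =>
    rw [used_succ, Finset.sum_insert (choice_notMem D t ω), Finset.sum_range_succ, ih, add_comm]

end Pool.Agent.Lib.MP_0e8720_lc
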